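import Pool.Agent.Helper8.FH.Cay

/-!
# MP_121524_al : the solutions in the charts are algebraic over the parameters
-/

set_option autoImplicit false

namespace Pool.Agent.Helper8.FH

open Matrix

theorem coord_map {R S : Type} [Field R] [Field S] {m : ℕ} (f : R →+* S)
    (M : Matrix (Ix m) (Ix m) R) (p : Kp m) : coord (M.map f) p = f (coord M p) := by
  rcases p with p | p
  · simp only [coord]
    split_ifs <;> rfl
  · rfl

theorem st_alg (h : StTrd) : StAlg := by
  intro m k T e hT hsol
  set u : Fin (k + 1) × Kp m → ℝ := fun p => if p.1 = 0 then e p.2 else T p.1 p.2 with hu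
  set L := IntermediateField.adjoin ℚ (Set.range u) with hL
  have hmem : ∀ p, u p ∈ L := fun p => IntermediateField.subset_adjoin _ _ ⟨p, rfl⟩
  let f : L →+* ℝ := algebraMap L ℝ
  have hf : ∀ z : L, f z = (z : ℝ) := fun z => rfl
  -- the lifts
  let e' : Kp m → L := fun j => ⟨e j, by
    have := hmem (0, j)
    simpa [hu] using this⟩
  let T' : Fin k → Kp m → L := fun i j => ⟨T i.succ j, by
    have := hmem (i.succ, j)
    simpa [hu, Fin.succ_ne_zero] using this⟩
  have hx : xx e = (xx e').map f := by
    rw [xx_map]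
    rfl
  have hy : yy e = (yy e').map f := by
    rw [yy_map]
    rfl
  set Z' : Matrix (Ix m) (Ix m) L :=
    xx e' * word (fun i => cay (skew (T' i))) (xx e') * yy e' with hZ'
  have hZ : cay (skew (T 0)) * Z'.map f = 1 := by
    have h1 := hsol.eq
    rw [word_succ] at h1
    rw [hZ', Matrix.map_mul, Matrix.map_mul, word_map, ← hx, ← hy]
    have h2 : (fun i => (cay (skew (T' i))).map f) = fun i : Fin k => cay (skew (T i.succ)) := by
      funext i
      rw [cay_map, skew_map]
      rfl
    rw [h2]
    rw [← h1]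
    simp only [Matrix.mul_assoc]
  have hsk : (skew (T 0))ᵀ = -skew (T 0) := skew_transpose _
  have hun := isUnit_one_add _ hsk
  have h0 : skew (T 0) = (cay (Z'⁻¹)).map f := by
    rw [cay_map, inv_map]
    have h1 : (Z'.map f)⁻¹ = cay (skew (T 0)) := inv_eq_left_inv hZ
    rw [h1, cay_cay _ hun]
  have hT0 : ∀ p, T 0 p ∈ L := by
    intro p
    have h1 : T 0 p = f (coord (cay (Z'⁻¹)) p) := by
      rw [← coord_map, ← h0, coord_skew]
    rw [h1, hf]
    exact SetLike.coe_mem _
  have hall : ∀ p : Fin (k + 1) × Kp m, T p.1 p.2 ∈ L := by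
    rintro ⟨i, p⟩
    by_cases hi : i = 0
    · rw [hi]
      exact hT0 p
    · have := hmem (i, p)
      simpa [hu, hi] using this
  have key := h (Fin (k + 1) × Kp m) u _ hT hall
  intro i j
  constructor
  · apply key
    rw [hx]
    exact SetLike.coe_mem _
  · apply key
    rw [hy]
    exact SetLike.coe_mem _

end Pool.Agent.Helper8.FH
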