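import Pool.Agent.Helper8.FH.Cpt

/-!
# MP_121524_al : solutions for all parameters
-/

set_option autoImplicit false

namespace Pool.Agent.Helper8.FH

open Matrix Topology

theorem map_inj {n : Type} {R S : Type} [Field R] [Field S] (f : R →+* S)
    {M N : Matrix n n R} (h : M.map f = N.map f) : M = N := by
  ext i j
  have := congrFun (congrFun h i) j
  exact f.injective this

theorem Sol.of_map {R S : Type} [Field R] [Field S] {m k : ℕ} {T : Fin k → Kp m → R}
    {x y : Matrix (Ix m) (Ix m) R} (f : R →+* S)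
    (h : Sol (fun i j => f (T i j)) (x.map f) (y.map f)) : Sol T x y where
  xs := map_inj f (by rw [transpose_map, h.xs])
  xi := map_inj f (by
    rw [Matrix.map_mul, h.xi]
    exact (Matrix.map_one f f.map_zero f.map_one).symm)
  xl := by
    funext i
    apply f.injective
    have h2 := congrFun h.xl i
    simp only [mulVec, dotProduct, map_sum, map_mul, Pi.neg_apply, map_neg, map_apply] at h2 ⊢
    have h3 : ∀ j : Ix m, f (ell j) = ell j := by
      rintro (j | j) <;> simp [ell]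
    simp only [h3]
    exact h2
  ys := map_inj f (by rw [transpose_map, h.ys])
  yi := map_inj f (by
    rw [Matrix.map_mul, h.yi]
    exact (Matrix.map_one f f.map_zero f.map_one).symm)
  eq := map_inj f (by
    rw [Matrix.map_mul, word_map]
    have h1 := h.eq
    simp only [cay_map, skew_map] at h1 ⊢
    rw [h1]
    exact (Matrix.map_one f f.map_zero f.map_one).symm)

/-- The first matrix of a point. -/
def m1 {K : Type} {m : ℕ} (s : (Ix m × Ix m) ⊕ (Ix m × Ix m) → K) : Matrix (Ix m) (Ix m) K :=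
  of fun i j => s (Sum.inl (i, j))

/-- The second matrix of a point. -/
def m2 {K : Type} {m : ℕ} (s : (Ix m × Ix m) ⊕ (Ix m × Ix m) → K) : Matrix (Ix m) (Ix m) K :=
  of fun i j => s (Sum.inr (i, j))

theorem st_all (h1 : StPar) (h2 : StAlg) (h3 : StLoc) (h4 : StCpt) (h5 : StGen) : StAll := by
  intro m k hk Tst
  obtain ⟨V, hV, W, hW, hex, huq⟩ := h3 m k hk
  obtain ⟨V', hV', hcp⟩ := h4 m k hk W hW
  have hVV : V ∩ V' ∈ 𝓝 (T0 m k) := Filter.inter_mem hV hV'
  obtain ⟨U, hU, hUo, hU0⟩ := mem_nhds_iff.1 hVV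
  set cur : (Fin (k + 1) × Kp m → ℝ) → (Fin (k + 1) → Kp m → ℝ) := fun t i j => t (i, j)
    with hcur
  have hcc : Continuous cur := by
    apply continuous_pi
    intro i
    apply continuous_pi
    intro j
    exact continuous_apply _
  obtain ⟨t, ht, hti⟩ := h5 (Fin (k + 1) × Kp m) (cur ⁻¹' U) (hUo.preimage hcc)
    ⟨fun p => T0 m k p.1 p.2, hU0⟩
  set T : Fin (k + 1) → Kp m → ℝ := cur t with hT
  have hTV : T ∈ V := (hU ht).1
  have hTV' : T ∈ V' := (hU ht).2
  obtain ⟨e, he, hse⟩ := hex T hTV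
  have huniq : ∀ x y, Sol T x y → x = xx e ∧ y = yy e := by
    intro x y hs
    obtain ⟨e', he', hx, hy⟩ := hcp T hTV' x y hs
    have : e = e' := by
      apply huq T hTV e he e' he' hse
      rw [← hx, ← hy]
      exact hs
    rw [this]
    exact ⟨hx, hy⟩
  have halg := h2 m k T e hti hse
  -- rational translates
  have hgood : ∀ q : Fin (k + 1) × Kp m → ℚ,
      ∃ x y, Sol (fun i j => T i j + ((q (i, j) : ℚ) : ℝ)) x y := by
    intro q
    let ofr : ℝ →+* ℂ := Complex.ofRealHom
    let S : Set ((Ix m × Ix m) ⊕ (Ix m × Ix m) → ℂ) :=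
      {s | Sol (fun i j => ((T i j : ℝ) : ℂ)) (m1 s) (m2 s)}
    let S' : Set ((Ix m × Ix m) ⊕ (Ix m × Ix m) → ℂ) :=
      {s | Sol (fun i j => ((T i j : ℝ) : ℂ) + ((q (i, j) : ℚ) : ℂ)) (m1 s) (m2 s)}
    let s0 : (Ix m × Ix m) ⊕ (Ix m × Ix m) → ℝ :=
      Sum.elim (fun p => xx e p.1 p.2) (fun p => yy e p.1 p.2)
    have key := h1 (Fin (k + 1) × Kp m) ((Ix m × Ix m) ⊕ (Ix m × Ix m)) t q S S' hti ?_ ?_ s0
      ?_ ?_ ?_
    · obtain ⟨s, hs⟩ := key
      refine ⟨m1 s, m2 s, Sol.of_map ofr ?_⟩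
      have e1 : (fun i j => ofr (T i j + ((q (i, j) : ℚ) : ℝ))) =
          fun i j => ((T i j : ℝ) : ℂ) + ((q (i, j) : ℚ) : ℂ) := by
        funext i j
        simp [ofr]
      rw [e1]
      exact hs
    · intro γ hγ s hs
      have := Sol.map (f := (γ : ℂ →+* ℂ)) hs
      have e1 : (fun i j => (γ : ℂ →+* ℂ) ((T i j : ℝ) : ℂ)) = fun i j => ((T i j : ℝ) : ℂ) := by
        funext i j
        exact hγ (i, j)
      rw [e1] at this
      exact this
    · intro σ hσ s hs
      have := Sol.map (f := (σ : ℂ →+* ℂ)) hs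
      have e1 : (fun i j => (σ : ℂ →+* ℂ) ((T i j : ℝ) : ℂ)) =
          fun i j => ((T i j : ℝ) : ℂ) + ((q (i, j) : ℚ) : ℂ) := by
        funext i j
        exact hσ (i, j)
      rw [e1] at this
      exact this
    · exact Sol.map (f := ofr) hse
    · intro s hs
      have h6 : Sol T (m1 s) (m2 s) := Sol.of_map ofr hs
      obtain ⟨h7, h8⟩ := huniq _ _ h6
      funext n
      rcases n with n | n
      · exact congrFun (congrFun h7 n.1) n.2
      · exact congrFun (congrFun h8 n.1) n.2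
    · rintro (n | n)
      · exact (halg n.1 n.2).1
      · exact (halg n.1 n.2).2
  -- density
  have hcl := isClosed_good (m := m) (k + 1)
  have : Tst ∈ closure {T' : Fin (k + 1) → Kp m → ℝ | ∃ x y, Sol T' x y} := by
    rw [Metric.mem_closure_iff]
    intro ε hε
    have hq : ∀ p : Fin (k + 1) × Kp m, ∃ q : ℚ, |Tst p.1 p.2 - (T p.1 p.2 + q)| < ε / 2 := by
      intro p
      obtain ⟨q, hq1, hq2⟩ := exists_rat_btwn
        (show Tst p.1 p.2 - T p.1 p.2 - ε / 2 < Tst p.1 p.2 - T p.1 p.2 by linarith)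
      refine ⟨q, ?_⟩
      rw [abs_lt]
      constructor <;> linarith
    choose q hq using hq
    refine ⟨_, hgood q, ?_⟩
    rw [dist_pi_lt_iff hε]
    intro i
    rw [dist_pi_lt_iff hε]
    intro j
    rw [Real.dist_eq]
    exact (hq (i, j)).trans (by linarith)
  rw [hcl.closure_eq] at this
  exact this

end Pool.Agent.Helper8.FH
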