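import Pool.Agent.Helper8.FH.Cay

/-!
# MP_121524_al : the base parameters have only one solution
-/

set_option autoImplicit false

namespace Pool.Agent.Helper8.FH

open Matrix

variable {m : ℕ}

/-- The block of the base matrix. -/
def f0 (m : ℕ) : Fin m → ℝ := fun i => (i : ℕ) + 1

theorem ee_e0 : ee (e0 m) = 0 := by
  ext i j
  simp only [ee, of_apply, e0, Matrix.zero_apply]
  split_ifs <;> simp

theorem ff_e0 : ff (e0 m) = diagonal (f0 m) := by
  ext i j
  simp only [ff, of_apply, e0, diagonal_apply, f0]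

theorem skew_e0 : skew (e0 m) = offd (diagonal (f0 m)) := by
  unfold skew offd
  congr 1
  · ext i j
    simp only [of_apply, e0, Matrix.zero_apply, neg_zero]
    split_ifs <;> rfl
  · ext i j
    simp only [of_apply, e0, Matrix.zero_apply, neg_zero]
    split_ifs <;> rfl

theorem skew_zero {R : Type} [Field R] : skew (0 : Kp m → R) = 0 := by
  unfold skew
  rw [← fromBlocks_zero]
  congr 1
  · ext i j
    simp
  · ext i j
    simp
  · ext i j
    simp

theorem offd_zero {R : Type} [Field R] : offd (0 : Matrix (Fin m) (Fin m) R) = 0 := by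
  simp [offd]

theorem xx_e0 : xx (e0 m) = dd := by
  unfold xx
  rw [ee_e0, offd_zero, cay_zero, Matrix.one_mul]

theorem f0_pos (i : Fin m) : 0 < f0 m i := by
  unfold f0
  positivity

theorem f0_inj {i j : Fin m} (h : f0 m i = f0 m j) : i = j := by
  unfold f0 at h
  have : ((i : ℕ) : ℝ) = ((j : ℕ) : ℝ) := by linarith
  exact Fin.ext (by exact_mod_cast this)

theorem f0_sq_inj {i j : Fin m} (h : f0 m i * f0 m i = f0 m j * f0 m j) : i = j := by
  apply f0_inj
  have h1 := f0_pos i
  have h2 := f0_pos j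
  nlinarith

/-- A matrix commuting with `f ^ 2` is diagonal. -/
theorem diag_of_comm (P : Matrix (Fin m) (Fin m) ℝ)
    (h : P * (diagonal (f0 m) * diagonal (f0 m)) = diagonal (f0 m) * diagonal (f0 m) * P) (i j)
    (hij : i ≠ j) : P i j = 0 := by
  have h1 := congrFun (congrFun h i) j
  rw [diagonal_mul_diagonal, mul_diagonal, diagonal_mul] at h1
  have h2 : (f0 m i * f0 m i - f0 m j * f0 m j) * P i j = 0 := by linarith
  rcases mul_eq_zero.1 h2 with h3 | h3
  · exact absurd (f0_sq_inj (by linarith)) hij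
  · exact h3

theorem word_T0 {k : ℕ} (hk : Even k) (x : Matrix (Ix m) (Ix m) ℝ) (hx : x * x = 1) :
    word (fun i => cay (skew (T0 m k i))) x = cay (skew (e0 m)) * x := by
  rw [word_succ]
  have h1 : (fun i : Fin k => cay (skew (T0 m k i.succ))) =
      fun _ => (1 : Matrix (Ix m) (Ix m) ℝ) := by
    funext i
    simp only [T0]
    rw [if_neg (Fin.succ_ne_zero i), skew_zero, cay_zero]
  rw [h1, word_one]
  obtain ⟨j, rfl⟩ := hk
  rw [← two_mul, pow_mul, pow_two, hx, one_pow, Matrix.mul_one]
  simp [T0]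

theorem st_base : StBase := by
  intro m k hk x y h
  set g : Matrix (Ix m) (Ix m) ℝ := cay (skew (e0 m)) with hg
  set B : Matrix (Ix m) (Ix m) ℝ := skew (e0 m) with hB
  have hBs : Bᵀ = -B := skew_transpose _
  have hu : IsUnit (1 + B).det := isUnit_one_add B hBs
  have hu' : IsUnit (1 - B).det := isUnit_one_sub B hBs
  have hgi : cay (-B) * g = 1 := by
    have := cay_neg_mul (-B) (by rw [← sub_eq_add_neg]; exact hu') (by simpa using hu)
    rwa [neg_neg] at this
  have hgi' : g * cay (-B) = 1 := cay_neg_mul B hu hu'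
  have heq : g * x * y = 1 := by
    have := h.eq
    rw [word_T0 hk x h.xi] at this
    exact this
  -- y = x * g⁻¹
  have hy : y = x * cay (-B) := by
    calc y = x * (cay (-B) * g) * x * y := by
          rw [hgi, Matrix.mul_one, h.xi, Matrix.one_mul]
      _ = x * cay (-B) * (g * x * y) := by simp only [Matrix.mul_assoc]
      _ = x * cay (-B) := by rw [heq, Matrix.mul_one]
  -- x g x = g⁻¹
  have hxgx : x * cay (-B) * x = g := by
    have h1 := h.yi
    rw [hy] at h1
    calc x * cay (-B) * x = x * cay (-B) * x * (cay (-B) * g) := by rw [hgi, Matrix.mul_one]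
      _ = (x * cay (-B) * (x * cay (-B))) * g := by simp only [Matrix.mul_assoc]
      _ = g := by rw [h1, Matrix.one_mul]
  -- x anticommutes with B
  have hxB : x * B = -(B * x) := by
    have hv : IsUnit (1 + -B).det := by rw [← sub_eq_add_neg]; exact hu'
    have h1 : B = cay g := (cay_cay B hu).symm
    have h2 : -B = cay (cay (-B)) := (cay_cay (-B) hv).symm
    have h3 : x * cay (cay (-B)) * x = cay (x * cay (-B) * x) := by
      have hxi : x⁻¹ = x := inv_eq_left_inv h.xi
      have e1 : ∀ N : Matrix (Ix m) (Ix m) ℝ, (x * N * x)⁻¹ = x * N⁻¹ * x := by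
        intro N
        rw [Matrix.mul_inv_rev, Matrix.mul_inv_rev, hxi, ← Matrix.mul_assoc]
      have e2 : x * (1 + cay (-B)) * x = 1 + x * cay (-B) * x := by
        rw [Matrix.mul_add, Matrix.add_mul, Matrix.mul_one, h.xi]
      have e3 : x * (1 - cay (-B)) * x = 1 - x * cay (-B) * x := by
        rw [Matrix.mul_sub, Matrix.sub_mul, Matrix.mul_one, h.xi]
      conv_lhs => unfold cay
      conv_rhs => unfold cay
      change x * ((1 - cay (-B)) * (1 + cay (-B))⁻¹) * x =
        (1 - x * cay (-B) * x) * (1 + x * cay (-B) * x)⁻¹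
      rw [← e2, ← e3, e1]
      calc x * ((1 - cay (-B)) * (1 + cay (-B))⁻¹) * x
          = x * (1 - cay (-B)) * 1 * (1 + cay (-B))⁻¹ * x := by
            simp only [Matrix.mul_assoc, Matrix.one_mul]
        _ = _ := by
            rw [← h.xi]
            simp only [Matrix.mul_assoc]
    have h4 : x * (-B) * x = B := by
      rw [h2, h3, hxgx, ← h1]
    calc x * B = x * B * (x * x) := by rw [h.xi, Matrix.mul_one]
      _ = -(x * (-B) * x) * x := by
          simp only [Matrix.mul_neg, Matrix.neg_mul, neg_neg, Matrix.mul_assoc]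
      _ = -(B * x) := by rw [h4, Matrix.neg_mul]
  -- blocks
  obtain ⟨P, Q, R, S, hx⟩ : ∃ P Q R S, x = fromBlocks P Q R S :=
    ⟨_, _, _, _, (fromBlocks_toBlocks x).symm⟩
  have hB' : B = fromBlocks 0 (diagonal (f0 m)) (-diagonal (f0 m)) 0 := by
    rw [hB, skew_e0]
    unfold offd
    rw [diagonal_transpose]
  set F : Matrix (Fin m) (Fin m) ℝ := diagonal (f0 m) with hF
  have hcom : x * (B * B) = B * B * x := by
    calc x * (B * B) = x * B * B := by rw [Matrix.mul_assoc]
      _ = -(B * (x * B)) := by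
          rw [hxB]
          nth_rewrite 1 [Matrix.neg_mul]
          rw [Matrix.mul_assoc, hxB]
      _ = B * B * x := by rw [hxB]; simp only [Matrix.mul_neg, neg_neg, Matrix.mul_assoc]
  have hBB : B * B = fromBlocks (-(F * F)) 0 0 (-(F * F)) := by
    rw [hB', fromBlocks_multiply]
    simp
  rw [hBB, hx, fromBlocks_multiply, fromBlocks_multiply, fromBlocks_inj] at hcom
  simp only [Matrix.mul_zero, Matrix.zero_mul, add_zero, zero_add, Matrix.mul_neg,
    Matrix.neg_mul, neg_inj] at hcom
  obtain ⟨c1, c2, c3, c4⟩ := hcom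
  have dP := diag_of_comm P c1
  have dQ := diag_of_comm Q c2
  have dR := diag_of_comm R c3
  have dS := diag_of_comm S c4
  rw [hB', hx, fromBlocks_multiply, fromBlocks_multiply, fromBlocks_neg, fromBlocks_inj] at hxB
  simp only [Matrix.mul_zero, Matrix.zero_mul, add_zero, zero_add, Matrix.mul_neg,
    Matrix.neg_mul, neg_neg] at hxB
  obtain ⟨b1, b2, b3, b4⟩ := hxB
  have hl := h.xl
  rw [hx] at hl
  unfold ell at hl
  rw [fromBlocks_mulVec] at hl
  have hl1 : ∀ i, (Q *ᵥ (1 : Fin m → ℝ)) i = 0 := by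
    intro i
    have h1 := congrFun hl (Sum.inl i)
    have h2 : (P *ᵥ (0 : Fin m → ℝ)) i = 0 := by rw [mulVec_zero]; rfl
    simp only [Sum.elim_comp_inl, Sum.elim_comp_inr, Sum.elim_inl, Pi.neg_apply,
      Pi.add_apply, Pi.zero_apply] at h1
    rw [h2] at h1
    simpa using h1
  have hl2 : ∀ i, (S *ᵥ (1 : Fin m → ℝ)) i = -1 := by
    intro i
    have h1 := congrFun hl (Sum.inr i)
    have h2 : (R *ᵥ (0 : Fin m → ℝ)) i = 0 := by rw [mulVec_zero]; rfl
    simp only [Sum.elim_comp_inl, Sum.elim_comp_inr, Sum.elim_inr, Pi.neg_apply,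
      Pi.add_apply, Pi.one_apply] at h1
    rw [h2] at h1
    simpa using h1
  have hdiag : ∀ N : Matrix (Fin m) (Fin m) ℝ, (∀ i j, i ≠ j → N i j = 0) → ∀ i,
      (N *ᵥ (1 : Fin m → ℝ)) i = N i i := by
    intro N hN i
    simp only [mulVec, dotProduct, Pi.one_apply, mul_one]
    exact Finset.sum_eq_single i (fun b _ hb => hN i b (Ne.symm hb)) (by simp)
  have hQ : Q = 0 := by
    ext i j
    by_cases hij : i = j
    · subst hij
      rw [← hdiag Q dQ i, hl1 i]
      rfl
    · rw [dQ i j hij]
      rfl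
  have hS : S = -1 := by
    ext i j
    rw [Matrix.neg_apply, Matrix.one_apply]
    by_cases hij : i = j
    · subst hij
      rw [← hdiag S dS i, hl2 i]
      simp
    · rw [dS i j hij]
      simp [hij]
  have hP : P = 1 := by
    ext i j
    rw [Matrix.one_apply]
    by_cases hij : i = j
    · subst hij
      have h1 := congrFun (congrFun b2 i) i
      rw [hS] at h1
      simp only [Matrix.mul_neg, Matrix.mul_one, neg_neg, hF, mul_diagonal,
        diagonal_apply_eq] at h1
      have h2 := (f0_pos i).ne'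
      have h3 : (P i i - 1) * f0 m i = 0 := by linarith
      rcases mul_eq_zero.1 h3 with h4 | h4
      · rw [if_pos rfl]
        linarith
      · exact absurd h4 h2
    · rw [dP i j hij]
      simp [hij]
  have hR : R = 0 := by
    ext i j
    by_cases hij : i = j
    · subst hij
      have h1 := congrFun (congrFun b4 i) i
      rw [hQ] at h1
      simp only [Matrix.mul_zero, hF, mul_diagonal, Matrix.zero_apply] at h1
      rcases mul_eq_zero.1 h1 with h4 | h4
      · exact h4
      · exact absurd h4 (f0_pos i).ne'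
    · rw [dR i j hij]
      rfl
  have hxd : x = dd := by
    rw [hx, hP, hQ, hR, hS]
    rfl
  refine ⟨by rw [hxd, xx_e0], ?_⟩
  rw [hy, hxd]
  unfold yy
  rw [ff_e0, ← hF]
  have h1 : offd F = B := by
    rw [hB, skew_e0]
  rw [h1]
  have h2 : dd * B * dd = -B := by
    rw [← h1]
    exact dd_offd_dd _
  rw [← cay_dd_conj B h2, ← Matrix.mul_assoc, ← Matrix.mul_assoc, dd_mul_dd, Matrix.one_mul]

end Pool.Agent.Helper8.FH
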