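import Pool.Agent.Helper8.FH.St

/-!
# MP_121524_al : the Cayley transform
-/

set_option autoImplicit false

namespace Pool.Agent.Helper8.FH

open Matrix

section Maps

variable {R S : Type} [Field R] [Field S] {m : ℕ}

theorem inv_map {n : Type} [Fintype n] [DecidableEq n] (f : R →+* S) (M : Matrix n n R) :
    (M⁻¹).map f = (M.map f)⁻¹ := by
  by_cases h : IsUnit M.det
  · symm
    apply inv_eq_left_inv
    rw [← Matrix.map_mul, nonsing_inv_mul _ h]
    exact Matrix.map_one f f.map_zero f.map_one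
  · rw [nonsing_inv_apply_not_isUnit _ h, nonsing_inv_apply_not_isUnit]
    · ext i j
      simp
    · intro h'
      apply h
      rw [isUnit_iff_ne_zero] at h' ⊢
      intro h0
      apply h'
      have := f.map_det M
      rw [h0, f.map_zero] at this
      rw [this]
      rfl

theorem cay_map (f : R →+* S) (T : Matrix (Ix m) (Ix m) R) : (cay T).map f = cay (T.map f) := by
  unfold cay
  rw [Matrix.map_mul, inv_map]
  congr 2
  · ext i j
    simp [Matrix.map_apply, Matrix.one_apply]
  · ext i j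
    simp [Matrix.map_apply, Matrix.one_apply]

theorem skew_map (f : R →+* S) (t : Kp m → R) : (skew t).map f = skew (fun i => f (t i)) := by
  unfold skew
  rw [fromBlocks_map]
  congr 1
  · ext i j
    simp only [map_apply, of_apply]
    split_ifs <;> simp
  · ext i j
    simp
  · ext i j
    simp only [map_apply, of_apply]
    split_ifs <;> simp

theorem dd_map (f : R →+* S) : (dd : Matrix (Ix m) (Ix m) R).map f = dd := by
  unfold dd
  rw [fromBlocks_map]
  congr 1
  · exact Matrix.map_one f f.map_zero f.map_one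
  · exact Matrix.map_zero f f.map_zero
  · exact Matrix.map_zero f f.map_zero
  · ext i j
    have h1 : ∀ K : Type, ∀ [Field K], (-1 : Matrix (Fin m) (Fin m) K) i j =
        if i = j then -1 else 0 := by
      intro K _
      rw [Matrix.neg_apply, Matrix.one_apply]
      split_ifs <;> simp
    rw [map_apply, h1, h1]
    split_ifs <;> simp

theorem offd_map (f : R →+* S) (E : Matrix (Fin m) (Fin m) R) :
    (offd E).map f = offd (E.map f) := by
  unfold offd
  rw [fromBlocks_map]
  congr 1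
  · exact Matrix.map_zero f f.map_zero
  · ext i j
    simp
  · exact Matrix.map_zero f f.map_zero

theorem ee_map (f : R →+* S) (e : Kp m → R) : (ee e).map f = ee (fun i => f (e i)) := by
  ext i j
  simp only [ee, map_apply, of_apply]
  split_ifs with h
  · rfl
  · rw [map_neg, map_sum]
    congr 1
    apply Finset.sum_congr rfl
    intro k _
    split_ifs <;> simp

theorem ff_map (f : R →+* S) (e : Kp m → R) : (ff e).map f = ff (fun i => f (e i)) := rfl

theorem xx_map (f : R →+* S) (e : Kp m → R) : (xx e).map f = xx (fun i => f (e i)) := by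
  unfold xx
  rw [Matrix.map_mul, cay_map, offd_map, ee_map, dd_map]

theorem yy_map (f : R →+* S) (e : Kp m → R) : (yy e).map f = yy (fun i => f (e i)) := by
  unfold yy
  rw [Matrix.map_mul, cay_map, offd_map, ff_map, dd_map]

theorem word_map (f : R →+* S) {k : ℕ} (a : Fin k → Matrix (Ix m) (Ix m) R)
    (x : Matrix (Ix m) (Ix m) R) : (word a x).map f = word (fun i => (a i).map f) (x.map f) := by
  unfold word
  have h : ∀ M : Matrix (Ix m) (Ix m) R, M.map f = f.mapMatrix M := fun M => rfl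
  rw [h, map_list_prod, List.map_ofFn]
  congr 1
  congr 1
  funext i
  simp [Function.comp]

theorem Sol.map {k : ℕ} {T : Fin k → Kp m → R} {x y : Matrix (Ix m) (Ix m) R}
    (h : Sol T x y) (f : R →+* S) : Sol (fun i j => f (T i j)) (x.map f) (y.map f) where
  xs := by rw [← transpose_map, h.xs]
  xi := by
    rw [← Matrix.map_mul, h.xi]
    exact Matrix.map_one f f.map_zero f.map_one
  xl := by
    funext i
    have h1 := congrFun h.xl i
    have h2 := congrArg f h1
    simp only [mulVec, dotProduct, map_sum, map_mul, Pi.neg_apply, map_neg] at h2 ⊢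
    have h3 : ∀ j : Ix m, f (ell j) = ell j := by
      rintro (j | j) <;> simp [ell]
    simp only [h3] at h2
    exact h2
  ys := by rw [← transpose_map, h.ys]
  yi := by
    rw [← Matrix.map_mul, h.yi]
    exact Matrix.map_one f f.map_zero f.map_one
  eq := by
    have h1 := congrArg (fun M => Matrix.map M f) h.eq
    simp only [Matrix.map_mul, word_map, cay_map, skew_map] at h1
    rw [h1]
    exact Matrix.map_one f f.map_zero f.map_one

end Maps

section Coord

variable {R : Type} [Field R] {m : ℕ}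

theorem coord_skew (t : Kp m → R) : coord (skew t) = t := by
  funext p
  rcases p with ⟨⟨i, j⟩, hij⟩ | ⟨i, j⟩
  · simp only [coord]
    split_ifs with h
    · simp [skew, h]
    · have h' : j < i := lt_of_le_of_ne (not_lt.1 h) (fun h'' => hij h''.symm)
      simp [skew, h']
  · simp [coord, skew]

theorem skew_coord [NeZero (2 : R)] (M : Matrix (Ix m) (Ix m) R) (hM : Mᵀ = -M) :
    skew (coord M) = M := by
  have h0 : ∀ i j, M j i = - M i j := fun i j => by
    have := congrFun (congrFun hM i) j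
    simpa using this
  have hd : ∀ i, M i i = 0 := fun i => by
    have := h0 i i
    have h2 : (2 : R) * M i i = 0 := by linear_combination this
    exact (mul_eq_zero.1 h2).resolve_left (NeZero.ne _)
  ext i j
  rcases i with i | i <;> rcases j with j | j
  · simp only [skew, fromBlocks_apply₁₁, of_apply, coord]
    rcases lt_trichotomy i j with h | h | h
    · simp [h]
    · subst h
      simp [hd]
    · simp [h, not_lt.2 h.le, ← h0]
  · simp [skew, coord]
  · simp only [skew, fromBlocks_apply₂₁, of_apply, coord]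
    exact (h0 _ _).symm
  · simp only [skew, fromBlocks_apply₂₂, of_apply, coord]
    rcases lt_trichotomy i j with h | h | h
    · simp [h, not_lt.2 h.le]
    · subst h
      simp [hd]
    · simp [h, not_lt.2 h.le, ← h0]

end Coord

section Alg

variable {R : Type} [Field R] {m : ℕ}

theorem cay_mul (M : Matrix (Ix m) (Ix m) R) (h : IsUnit (1 + M).det) :
    cay M * (1 + M) = 1 - M := by
  unfold cay
  rw [Matrix.mul_assoc, nonsing_inv_mul _ h, Matrix.mul_one]

theorem cay_comm (M : Matrix (Ix m) (Ix m) R) (h : IsUnit (1 + M).det) :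
    cay M = (1 + M)⁻¹ * (1 - M) := by
  have h1 : (1 + M) * (1 - M) = (1 - M) * (1 + M) := by noncomm_ring
  calc cay M = (1 + M)⁻¹ * ((1 + M) * (1 - M)) * (1 + M)⁻¹ := by
        rw [← Matrix.mul_assoc, nonsing_inv_mul _ h, Matrix.one_mul]
        rfl
    _ = (1 + M)⁻¹ * (1 - M) := by
        rw [h1, Matrix.mul_assoc, Matrix.mul_assoc, mul_nonsing_inv _ h, Matrix.mul_one]

theorem mul_cay (M : Matrix (Ix m) (Ix m) R) (h : IsUnit (1 + M).det) :
    (1 + M) * cay M = 1 - M := by
  rw [cay_comm M h, ← Matrix.mul_assoc, mul_nonsing_inv _ h, Matrix.one_mul]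

theorem cay_transpose (M : Matrix (Ix m) (Ix m) R) (h : IsUnit (1 + M).det) :
    (cay M)ᵀ = cay Mᵀ := by
  rw [cay_comm M h, transpose_mul, transpose_nonsing_inv]
  simp [cay]

theorem one_add_cay (M : Matrix (Ix m) (Ix m) R) (h : IsUnit (1 + M).det) :
    1 + cay M = (2 : R) • (1 + M)⁻¹ := by
  have : (1 : Matrix (Ix m) (Ix m) R) = (1 + M) * (1 + M)⁻¹ := (mul_nonsing_inv _ h).symm
  unfold cay
  nth_rewrite 1 [this]
  rw [← Matrix.add_mul]
  rw [show (1 + M + (1 - M)) = (2 : R) • (1 : Matrix (Ix m) (Ix m) R) by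
    rw [two_smul]; abel]
  rw [smul_mul, Matrix.one_mul]

theorem one_sub_cay (M : Matrix (Ix m) (Ix m) R) (h : IsUnit (1 + M).det) :
    1 - cay M = (2 : R) • (M * (1 + M)⁻¹) := by
  have : (1 : Matrix (Ix m) (Ix m) R) = (1 + M) * (1 + M)⁻¹ := (mul_nonsing_inv _ h).symm
  unfold cay
  nth_rewrite 1 [this]
  rw [← Matrix.sub_mul]
  rw [show (1 + M - (1 - M)) = (2 : R) • M by
    rw [two_smul]; abel]
  rw [smul_mul]

theorem isUnit_one_add_cay [NeZero (2 : R)] (M : Matrix (Ix m) (Ix m) R)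
    (h : IsUnit (1 + M).det) : IsUnit (1 + cay M).det := by
  rw [one_add_cay M h, det_smul]
  apply IsUnit.mul
  · exact (isUnit_iff_ne_zero.2 (NeZero.ne (2 : R))).pow _
  · exact isUnit_nonsing_inv_det _ h

theorem cay_cay [NeZero (2 : R)] (M : Matrix (Ix m) (Ix m) R) (h : IsUnit (1 + M).det) :
    cay (cay M) = M := by
  have h2 : (2 : R) ≠ 0 := NeZero.ne _
  have h3 : (1 + cay M)⁻¹ = (2 : R)⁻¹ • (1 + M) := by
    apply inv_eq_left_inv
    rw [one_add_cay M h, smul_mul, Matrix.mul_smul, mul_nonsing_inv _ h, smul_smul,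
      inv_mul_cancel₀ h2, one_smul]
  conv_lhs => unfold cay
  change (1 - cay M) * (1 + cay M)⁻¹ = M
  rw [h3, one_sub_cay M h, smul_mul, Matrix.mul_smul, Matrix.mul_assoc, nonsing_inv_mul _ h,
    smul_smul, mul_inv_cancel₀ h2, one_smul, Matrix.mul_one]

theorem cay_neg_mul (M : Matrix (Ix m) (Ix m) R) (h : IsUnit (1 + M).det)
    (h' : IsUnit (1 - M).det) : cay M * cay (-M) = 1 := by
  have h1 : cay (-M) = (1 - M)⁻¹ * (1 + M) := by
    rw [cay_comm]
    · simp [sub_eq_add_neg]
    · rw [← sub_eq_add_neg]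
      exact h'
  rw [cay_comm M h, h1, Matrix.mul_assoc, ← Matrix.mul_assoc (1 - M), mul_nonsing_inv _ h',
    Matrix.one_mul, nonsing_inv_mul _ h]

theorem cay_zero : cay (0 : Matrix (Ix m) (Ix m) R) = 1 := by
  unfold cay
  simp

/-- commuting with the Cayley transform -/
theorem commute_cay {M A : Matrix (Ix m) (Ix m) R} (h : IsUnit (1 + M).det) (hA : Commute A M) :
    Commute A (cay M) := by
  have h1 : Commute A (1 + M) := (Commute.one_right A).add_right hA
  have h2 : Commute A (1 - M) := (Commute.one_right A).sub_right hA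
  have h3 : Commute A (1 + M)⁻¹ := by
    have e1 : A * (1 + M) = (1 + M) * A := h1
    have e2 : (1 + M)⁻¹ * A = A * (1 + M)⁻¹ := by
      calc (1 + M)⁻¹ * A = (1 + M)⁻¹ * (A * (1 + M)) * (1 + M)⁻¹ := by
            rw [Matrix.mul_assoc, Matrix.mul_assoc, mul_nonsing_inv _ h, Matrix.mul_one]
        _ = A * (1 + M)⁻¹ := by
            rw [e1, ← Matrix.mul_assoc, nonsing_inv_mul _ h, Matrix.one_mul]
    exact e2.symm
  exact h2.mul_right h3

theorem dd_mul_dd : (dd : Matrix (Ix m) (Ix m) R) * dd = 1 := by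
  unfold dd
  rw [fromBlocks_multiply]
  simp [← fromBlocks_one]

theorem dd_transpose : (dd : Matrix (Ix m) (Ix m) R)ᵀ = dd := by
  unfold dd
  rw [fromBlocks_transpose]
  simp

theorem dd_ell : (dd : Matrix (Ix m) (Ix m) R) *ᵥ ell = -ell := by
  unfold dd ell
  rw [fromBlocks_mulVec]
  funext i
  rcases i with i | i
  · simp
  · simp [neg_mulVec]

theorem offd_transpose (E : Matrix (Fin m) (Fin m) R) : (offd E)ᵀ = -offd E := by
  unfold offd
  rw [fromBlocks_transpose, fromBlocks_neg]
  simp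

theorem dd_offd (E : Matrix (Fin m) (Fin m) R) : dd * offd E = -(offd E * dd) := by
  unfold dd offd
  rw [fromBlocks_multiply, fromBlocks_multiply, fromBlocks_neg]
  simp

theorem dd_offd_dd (E : Matrix (Fin m) (Fin m) R) : dd * offd E * dd = -offd E := by
  rw [dd_offd, Matrix.neg_mul, Matrix.mul_assoc, dd_mul_dd, Matrix.mul_one]

theorem skew_transpose (t : Kp m → R) : (skew t)ᵀ = -skew t := by
  ext i j
  rcases i with i | i <;> rcases j with j | j
  · simp only [transpose_apply, Matrix.neg_apply, skew, fromBlocks_apply₁₁, of_apply]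
    rcases lt_trichotomy i j with h | h | h
    · simp [h, not_lt.2 h.le]
    · subst h
      simp
    · simp [h, not_lt.2 h.le]
  · simp [skew]
  · simp [skew]
  · simp only [transpose_apply, Matrix.neg_apply, skew, fromBlocks_apply₂₂, of_apply]
    rcases lt_trichotomy i j with h | h | h
    · simp [h, not_lt.2 h.le]
    · subst h
      simp
    · simp [h, not_lt.2 h.le]

theorem cay_dd_conj (M : Matrix (Ix m) (Ix m) R) (hM : dd * M * dd = -M) :
    dd * cay M * dd = cay (-M) := by
  have h1 : ∀ N : Matrix (Ix m) (Ix m) R, (dd * N * dd)⁻¹ = dd * N⁻¹ * dd := by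
    intro N
    rw [Matrix.mul_inv_rev, Matrix.mul_inv_rev, inv_eq_left_inv (dd_mul_dd (R := R) (m := m)),
      ← Matrix.mul_assoc]
  have h2 : dd * (1 + M) * dd = 1 + -M := by
    rw [Matrix.mul_add, Matrix.add_mul, hM, Matrix.mul_one, dd_mul_dd]
  have h3 : dd * (1 - M) * dd = 1 - -M := by
    rw [Matrix.mul_sub, Matrix.sub_mul, hM, Matrix.mul_one, dd_mul_dd]
  unfold cay
  rw [← h2, ← h3, h1]
  calc dd * ((1 - M) * (1 + M)⁻¹) * dd = dd * (1 - M) * 1 * (1 + M)⁻¹ * dd := by
        simp only [Matrix.mul_assoc, Matrix.one_mul]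
    _ = _ := by
        rw [← dd_mul_dd]
        simp only [Matrix.mul_assoc]

end Alg

section Real

variable {m : ℕ}

theorem isUnit_one_add {n : Type} [Fintype n] [DecidableEq n] (M : Matrix n n ℝ) (hM : Mᵀ = -M) :
    IsUnit (1 + M).det := by
  rw [isUnit_iff_ne_zero]
  intro h
  obtain ⟨v, hv, h0⟩ := exists_mulVec_eq_zero_iff.2 h
  apply hv
  rw [add_mulVec, one_mulVec] at h0
  have h1 : v ⬝ᵥ v + v ⬝ᵥ (M *ᵥ v) = 0 := by
    rw [← dotProduct_add, h0, dotProduct_zero]
  have h2 : v ⬝ᵥ (M *ᵥ v) = -(v ⬝ᵥ (M *ᵥ v)) := by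
    conv_lhs => rw [dotProduct_mulVec, ← mulVec_transpose, hM, neg_mulVec, neg_dotProduct,
      dotProduct_comm]
  have h3 : v ⬝ᵥ v = 0 := by linarith
  exact dotProduct_self_eq_zero.1 h3

theorem isUnit_one_sub {n : Type} [Fintype n] [DecidableEq n] (M : Matrix n n ℝ) (hM : Mᵀ = -M) :
    IsUnit (1 - M).det := by
  rw [sub_eq_add_neg]
  exact isUnit_one_add _ (by rw [transpose_neg, hM])

theorem cay_transpose_real (M : Matrix (Ix m) (Ix m) ℝ) (hM : Mᵀ = -M) : (cay M)ᵀ = cay (-M) := by
  rw [cay_transpose M (isUnit_one_add M hM), hM]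

theorem cay_mul_transpose (M : Matrix (Ix m) (Ix m) ℝ) (hM : Mᵀ = -M) :
    cay M * (cay M)ᵀ = 1 := by
  rw [cay_transpose_real M hM]
  exact cay_neg_mul M (isUnit_one_add M hM) (isUnit_one_sub M hM)

/-- The Cayley transform of an orthogonal matrix is skew. -/
theorem cay_skew (O : Matrix (Ix m) (Ix m) ℝ) (hO : O * Oᵀ = 1) (h : IsUnit (1 + O).det) :
    (cay O)ᵀ = -cay O := by
  have hO' : Oᵀ * O = 1 := mul_eq_one_comm.1 hO
  rw [cay_transpose O h]
  have h1 : IsUnit (1 + Oᵀ).det := by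
    have : (1 + Oᵀ) = (1 + O)ᵀ := by rw [transpose_add, transpose_one]
    rw [this, det_transpose]
    exact h
  have h2 : (1 + O) * Oᵀ = 1 + Oᵀ := by
    rw [Matrix.add_mul, hO, Matrix.one_mul, add_comm]
  have h3 : (1 - O) * Oᵀ = -(1 - Oᵀ) := by
    rw [Matrix.sub_mul, hO, Matrix.one_mul]
    abel
  have h4 : cay Oᵀ * (1 + Oᵀ) = -cay O * (1 + Oᵀ) := by
    rw [cay_mul _ h1, ← h2, Matrix.neg_mul, ← Matrix.mul_assoc, cay_mul O h, h3, neg_neg]
  have h5 := congrArg (fun N => N * (1 + Oᵀ)⁻¹) h4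
  simp only [Matrix.mul_assoc, mul_nonsing_inv _ h1, Matrix.mul_one] at h5
  exact h5

theorem inv_sym (M : Matrix (Ix m) (Ix m) ℝ) (hM : Mᵀ = -M) (hd : dd * M * dd = -M) :
    (cay M * dd)ᵀ = cay M * dd := by
  rw [transpose_mul, dd_transpose, cay_transpose_real M hM, ← cay_dd_conj M hd,
    ← Matrix.mul_assoc, ← Matrix.mul_assoc, dd_mul_dd, Matrix.one_mul]

theorem inv_sq (M : Matrix (Ix m) (Ix m) ℝ) (hM : Mᵀ = -M) (hd : dd * M * dd = -M) :
    cay M * dd * (cay M * dd) = 1 := by
  rw [Matrix.mul_assoc, ← Matrix.mul_assoc dd, cay_dd_conj M hd]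
  exact cay_neg_mul M (isUnit_one_add M hM) (isUnit_one_sub M hM)

theorem xx_transpose (e : Kp m → ℝ) : (xx e)ᵀ = xx e :=
  inv_sym _ (offd_transpose _) (dd_offd_dd _)

theorem yy_transpose (e : Kp m → ℝ) : (yy e)ᵀ = yy e :=
  inv_sym _ (offd_transpose _) (dd_offd_dd _)

theorem xx_sq (e : Kp m → ℝ) : xx e * xx e = 1 :=
  inv_sq _ (offd_transpose _) (dd_offd_dd _)

theorem yy_sq (e : Kp m → ℝ) : yy e * yy e = 1 :=
  inv_sq _ (offd_transpose _) (dd_offd_dd _)

theorem ee_one {R : Type} [Field R] (e : Kp m → R) : ee e *ᵥ 1 = 0 := by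
  funext i
  simp only [mulVec, dotProduct, Pi.one_apply, mul_one, Pi.zero_apply]
  rw [← Finset.add_sum_erase _ _ (Finset.mem_univ i)]
  simp only [ee, of_apply, ne_eq, not_true_eq_false, dite_false]
  have h1 : ∑ k, (if h : i ≠ k then e (Sum.inl ⟨(i, k), h⟩) else 0) =
      ∑ k ∈ Finset.univ.erase i, (if h : i ≠ k then e (Sum.inl ⟨(i, k), h⟩) else 0) := by
    rw [← Finset.add_sum_erase _ _ (Finset.mem_univ i)]
    simp
  rw [h1, neg_add_eq_zero]
  apply Finset.sum_congr rfl
  intro k hk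
  have : i ≠ k := (Finset.ne_of_mem_erase hk).symm
  simp [this]

theorem offd_ell {R : Type} [Field R] (E : Matrix (Fin m) (Fin m) R) (hE : E *ᵥ 1 = 0) :
    offd E *ᵥ ell = 0 := by
  unfold offd ell
  rw [fromBlocks_mulVec]
  funext i
  rcases i with i | i
  · simpa using congrFun hE i
  · simp

theorem cay_mulVec {R : Type} [Field R] (M : Matrix (Ix m) (Ix m) R) (h : IsUnit (1 + M).det)
    (v : Ix m → R) (hv : M *ᵥ v = 0) : cay M *ᵥ v = v := by
  rw [cay_comm M h, ← mulVec_mulVec, sub_mulVec, hv, one_mulVec, sub_zero]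
  have h1 : (1 + M) *ᵥ v = v := by rw [add_mulVec, hv, one_mulVec, add_zero]
  calc (1 + M)⁻¹ *ᵥ v = (1 + M)⁻¹ *ᵥ ((1 + M) *ᵥ v) := by rw [h1]
    _ = v := by rw [mulVec_mulVec, nonsing_inv_mul _ h, one_mulVec]

theorem xx_ell (e : Kp m → ℝ) : xx e *ᵥ ell = -ell := by
  unfold xx
  rw [← mulVec_mulVec, dd_ell, mulVec_neg,
    cay_mulVec _ (isUnit_one_add _ (offd_transpose _)) _ (offd_ell _ (ee_one e))]

/-- Only the equation matters for the chart. -/
theorem sol_chart {k : ℕ} (T : Fin k → Kp m → ℝ) (e : Kp m → ℝ)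
    (h : word (fun i => cay (skew (T i))) (xx e) * yy e = 1) : Sol T (xx e) (yy e) :=
  ⟨xx_transpose e, xx_sq e, xx_ell e, yy_transpose e, yy_sq e, h⟩

theorem word_succ {R : Type} [Field R] {k : ℕ} (a : Fin (k + 1) → Matrix (Ix m) (Ix m) R)
    (x : Matrix (Ix m) (Ix m) R) :
    word a x = a 0 * x * word (fun i : Fin k => a i.succ) x := by
  unfold word
  rw [List.ofFn_succ, List.prod_cons]

theorem word_orth {k : ℕ} (a : Fin k → Matrix (Ix m) (Ix m) ℝ) (x : Matrix (Ix m) (Ix m) ℝ)
    (ha : ∀ i, a i * (a i)ᵀ = 1) (hx : x * xᵀ = 1) : word a x * (word a x)ᵀ = 1 := by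
  induction k with
  | zero => simp [word]
  | succ k ih =>
    rw [word_succ]
    simp only [transpose_mul, Matrix.mul_assoc]
    rw [← Matrix.mul_assoc (word _ _), ih _ (fun i => ha _), Matrix.one_mul,
      ← Matrix.mul_assoc x, hx, Matrix.one_mul, ha]

theorem word_one {R : Type} [Field R] {k : ℕ} (x : Matrix (Ix m) (Ix m) R) :
    word (fun _ : Fin k => (1 : Matrix (Ix m) (Ix m) R)) x = x ^ k := by
  unfold word
  simp [List.ofFn_const]

end Real

end Pool.Agent.Helper8.FH
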