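import Pool.Agent.Helper8.FH.Base

/-!
# MP_121524_al : compactness
-/

set_option autoImplicit false

namespace Pool.Agent.Helper8.FH

open Matrix Topology

variable {m : ℕ}

theorem continuousAt_inv_matrix {n : Type} [Fintype n] [DecidableEq n] (M : Matrix n n ℝ)
    (h : IsUnit M.det) : ContinuousAt (fun N : Matrix n n ℝ => N⁻¹) M := by
  have h1 : (fun N : Matrix n n ℝ => N⁻¹) = fun N => (N.det)⁻¹ • N.adjugate := by
    funext N
    rw [Matrix.inv_def, Ring.inverse_eq_inv']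
  rw [h1]
  exact ContinuousAt.smul (f := fun N : Matrix n n ℝ => (N.det)⁻¹)
    (g := fun N : Matrix n n ℝ => N.adjugate)
    (ContinuousAt.inv₀ (continuous_id.matrix_det.continuousAt) (isUnit_iff_ne_zero.1 h))
    continuous_id.matrix_adjugate.continuousAt

theorem continuousAt_cay (M : Matrix (Ix m) (Ix m) ℝ) (h : IsUnit (1 + M).det) :
    ContinuousAt (cay : Matrix (Ix m) (Ix m) ℝ → Matrix (Ix m) (Ix m) ℝ) M := by
  unfold cay
  apply ContinuousAt.mul
  · exact (continuous_const.sub continuous_id).continuousAt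
  · exact ContinuousAt.comp (g := fun N : Matrix (Ix m) (Ix m) ℝ => N⁻¹)
      (f := fun N => 1 + N) (continuousAt_inv_matrix _ h)
      (continuous_const.add continuous_id).continuousAt

theorem continuous_skew : Continuous (skew : (Kp m → ℝ) → Matrix (Ix m) (Ix m) ℝ) := by
  apply continuous_matrix
  intro i j
  rcases i with i | i <;> rcases j with j | j
  · simp only [skew, fromBlocks_apply₁₁, of_apply]
    split_ifs <;> fun_prop
  · simp only [skew, fromBlocks_apply₁₂, of_apply]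
    fun_prop
  · simp only [skew, fromBlocks_apply₂₁, of_apply]
    fun_prop
  · simp only [skew, fromBlocks_apply₂₂, of_apply]
    split_ifs <;> fun_prop

theorem continuous_cay_skew : Continuous (fun t : Kp m → ℝ => cay (skew t)) := by
  rw [continuous_iff_continuousAt]
  intro t
  exact ContinuousAt.comp (g := cay) (continuousAt_cay _ (isUnit_one_add _ (skew_transpose _)))
    continuous_skew.continuousAt

theorem continuous_word {X : Type} [TopologicalSpace X] {k : ℕ}
    (a : X → Fin k → Matrix (Ix m) (Ix m) ℝ) (x : X → Matrix (Ix m) (Ix m) ℝ)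
    (ha : ∀ i, Continuous fun p => a p i) (hx : Continuous x) :
    Continuous fun p => word (a p) (x p) := by
  induction k with
  | zero =>
    simp only [word, List.ofFn_zero, List.prod_nil]
    exact continuous_const
  | succ k ih =>
    simp only [word_succ]
    exact ((ha 0).mul hx).mul (ih (fun p i => a p i.succ) (fun i => ha _))

theorem isClosed_sol (k : ℕ) : IsClosed {p : (Fin k → Kp m → ℝ) ×
    (Matrix (Ix m) (Ix m) ℝ × Matrix (Ix m) (Ix m) ℝ) | Sol p.1 p.2.1 p.2.2} := by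
  have h1 : {p : (Fin k → Kp m → ℝ) ×
      (Matrix (Ix m) (Ix m) ℝ × Matrix (Ix m) (Ix m) ℝ) | Sol p.1 p.2.1 p.2.2} =
      {p | p.2.1ᵀ = p.2.1} ∩ {p | p.2.1 * p.2.1 = 1} ∩ {p | p.2.1 *ᵥ ell = -ell} ∩
      {p | p.2.2ᵀ = p.2.2} ∩ {p | p.2.2 * p.2.2 = 1} ∩
      {p | word (fun i => cay (skew (p.1 i))) p.2.1 * p.2.2 = 1} := by
    ext p
    constructor
    · intro h
      exact ⟨⟨⟨⟨⟨h.xs, h.xi⟩, h.xl⟩, h.ys⟩, h.yi⟩, h.eq⟩
    · rintro ⟨⟨⟨⟨⟨h1, h2⟩, h3⟩, h4⟩, h5⟩, h6⟩
      exact ⟨h1, h2, h3, h4, h5, h6⟩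
  rw [h1]
  have c1 : Continuous fun p : (Fin k → Kp m → ℝ) ×
    (Matrix (Ix m) (Ix m) ℝ × Matrix (Ix m) (Ix m) ℝ) => p.2.1 := by fun_prop
  have c2 : Continuous fun p : (Fin k → Kp m → ℝ) ×
    (Matrix (Ix m) (Ix m) ℝ × Matrix (Ix m) (Ix m) ℝ) => p.2.2 := by fun_prop
  refine IsClosed.inter (IsClosed.inter (IsClosed.inter (IsClosed.inter (IsClosed.inter
    ?_ ?_) ?_) ?_) ?_) ?_
  · exact isClosed_eq c1.matrix_transpose c1
  · exact isClosed_eq (c1.mul c1) continuous_const
  · exact isClosed_eq (c1.matrix_mulVec continuous_const) continuous_const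
  · exact isClosed_eq c2.matrix_transpose c2
  · exact isClosed_eq (c2.mul c2) continuous_const
  · refine isClosed_eq ((continuous_word _ _ (fun i => ?_) c1).mul c2) continuous_const
    exact continuous_cay_skew.comp ((continuous_apply i).comp continuous_fst)

/-- The set of symmetric involutions. -/
def invs (m : ℕ) : Set (Matrix (Ix m) (Ix m) ℝ) := {x | xᵀ = x ∧ x * x = 1}

theorem isCompact_invs : IsCompact (invs m) := by
  have h1 : IsCompact {x : Matrix (Ix m) (Ix m) ℝ | ∀ i, x i ∈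
      {v : Ix m → ℝ | ∀ j, v j ∈ Set.Icc (-1 : ℝ) 1}} := by
    apply isCompact_pi_infinite
    intro i
    apply isCompact_pi_infinite
    intro j
    exact isCompact_Icc
  apply h1.of_isClosed_subset
  · have h2 : invs m = {x | xᵀ = x} ∩ {x | x * x = 1} := rfl
    rw [h2]
    exact (isClosed_eq continuous_id.matrix_transpose continuous_id).inter
      (isClosed_eq (continuous_id.mul continuous_id) continuous_const)
  · rintro x ⟨hx, hx2⟩ i j
    have h3 := congrFun (congrFun hx2 i) i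
    rw [Matrix.mul_apply, Matrix.one_apply_eq] at h3
    have h4 : ∀ l, x i l * x l i = x i l ^ 2 := by
      intro l
      have : x l i = x i l := by
        have := congrFun (congrFun hx i) l
        simpa using this
      rw [this, pow_two]
    simp only [h4] at h3
    have h5 : x i j ^ 2 ≤ 1 := by
      rw [← h3]
      exact Finset.single_le_sum (f := fun l => x i l ^ 2) (fun l _ => sq_nonneg _)
        (Finset.mem_univ j)
    have h6 := abs_le.1 ((sq_le_one_iff_abs_le_one _).1 h5)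
    exact h6

/-- The coordinates of a pair. -/
noncomputable def ex (q : Matrix (Ix m) (Ix m) ℝ × Matrix (Ix m) (Ix m) ℝ) : Kp m → ℝ
  | Sum.inl p => cay (q.1 * dd) (Sum.inl p.1.1) (Sum.inr p.1.2)
  | Sum.inr p => cay (q.2 * dd) (Sum.inl p.1) (Sum.inr p.2)

theorem anti_offd (A : Matrix (Ix m) (Ix m) ℝ) (hA : Aᵀ = -A) (hd : dd * A * dd = -A) :
    A = offd (of fun i j => A (Sum.inl i) (Sum.inr j)) := by
  obtain ⟨P, Q, R, S, rfl⟩ : ∃ P Q R S, A = fromBlocks P Q R S :=
    ⟨_, _, _, _, (fromBlocks_toBlocks A).symm⟩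
  unfold dd at hd
  rw [fromBlocks_multiply, fromBlocks_multiply, fromBlocks_neg, fromBlocks_inj] at hd
  simp only [Matrix.one_mul, Matrix.zero_mul, add_zero, Matrix.mul_one, Matrix.mul_zero,
    Matrix.neg_mul, zero_add, Matrix.mul_neg, neg_neg] at hd
  obtain ⟨h1, -, -, h4⟩ := hd
  rw [fromBlocks_transpose, fromBlocks_neg, fromBlocks_inj] at hA
  obtain ⟨-, -, g3, -⟩ := hA
  have hP : P = 0 := by
    have : (2 : ℝ) • P = 0 := by rw [two_smul]; nth_rewrite 1 [h1]; simp
    exact (smul_eq_zero.1 this).resolve_left two_ne_zero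
  have hS : S = 0 := by
    have : (2 : ℝ) • S = 0 := by rw [two_smul]; nth_rewrite 1 [h4]; simp
    exact (smul_eq_zero.1 this).resolve_left two_ne_zero
  have hR : R = -Qᵀ := by
    rw [g3, neg_neg]
  rw [hP, hS, hR]
  rfl

theorem cay_dd_conj' (M : Matrix (Ix m) (Ix m) ℝ) :
    dd * cay M * dd = cay (dd * M * dd) := by
  have h1 : ∀ N : Matrix (Ix m) (Ix m) ℝ, (dd * N * dd)⁻¹ = dd * N⁻¹ * dd := by
    intro N
    rw [Matrix.mul_inv_rev, Matrix.mul_inv_rev, inv_eq_left_inv (dd_mul_dd (R := ℝ) (m := m)),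
      ← Matrix.mul_assoc]
  have h2 : dd * (1 + M) * dd = 1 + dd * M * dd := by
    rw [Matrix.mul_add, Matrix.add_mul, Matrix.mul_one, dd_mul_dd]
  have h3 : dd * (1 - M) * dd = 1 - dd * M * dd := by
    rw [Matrix.mul_sub, Matrix.sub_mul, Matrix.mul_one, dd_mul_dd]
  unfold cay
  rw [← h2, ← h3, h1]
  calc dd * ((1 - M) * (1 + M)⁻¹) * dd = dd * (1 - M) * 1 * (1 + M)⁻¹ * dd := by
        simp only [Matrix.mul_assoc, Matrix.one_mul]
    _ = _ := by
        rw [← dd_mul_dd]
        simp only [Matrix.mul_assoc]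

/-- The chart for one involution. -/
theorem chart_inv (x : Matrix (Ix m) (Ix m) ℝ) (hx : xᵀ = x) (hx2 : x * x = 1)
    (hu : IsUnit (1 + x * dd).det) :
    cay (x * dd) = offd (of fun i j => cay (x * dd) (Sum.inl i) (Sum.inr j)) ∧
      x = cay (cay (x * dd)) * dd := by
  have hO : x * dd * (x * dd)ᵀ = 1 := by
    rw [transpose_mul, dd_transpose, hx, Matrix.mul_assoc, ← Matrix.mul_assoc dd, dd_mul_dd,
      Matrix.one_mul, hx2]
  have hs := cay_skew _ hO hu
  constructor
  · apply anti_offd _ hs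
    rw [cay_dd_conj']
    have h1 : dd * (x * dd) * dd = (x * dd)ᵀ := by
      rw [transpose_mul, dd_transpose, hx, Matrix.mul_assoc, Matrix.mul_assoc, dd_mul_dd,
        Matrix.mul_one]
    rw [h1, ← cay_transpose _ hu, hs]
  · rw [cay_cay _ hu, Matrix.mul_assoc, dd_mul_dd, Matrix.mul_one]

theorem ff_ex (q : Matrix (Ix m) (Ix m) ℝ × Matrix (Ix m) (Ix m) ℝ) :
    ff (ex q) = of fun i j => cay (q.2 * dd) (Sum.inl i) (Sum.inr j) := rfl

theorem chart_y (q : Matrix (Ix m) (Ix m) ℝ × Matrix (Ix m) (Ix m) ℝ) (hy : q.2ᵀ = q.2)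
    (hy2 : q.2 * q.2 = 1) (hu : IsUnit (1 + q.2 * dd).det) : q.2 = yy (ex q) := by
  obtain ⟨h1, h2⟩ := chart_inv q.2 hy hy2 hu
  unfold yy
  rw [ff_ex, ← h1]
  exact h2

theorem chart_x (q : Matrix (Ix m) (Ix m) ℝ × Matrix (Ix m) (Ix m) ℝ) (hx : q.1ᵀ = q.1)
    (hx2 : q.1 * q.1 = 1) (hl : q.1 *ᵥ ell = -ell) (hu : IsUnit (1 + q.1 * dd).det) :
    q.1 = xx (ex q) := by
  obtain ⟨h1, h2⟩ := chart_inv q.1 hx hx2 hu
  set Q : Matrix (Fin m) (Fin m) ℝ :=
    of fun i j => cay (q.1 * dd) (Sum.inl i) (Sum.inr j) with hQ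
  have h3 : cay (q.1 * dd) *ᵥ ell = 0 := by
    rw [cay_comm _ hu, ← mulVec_mulVec, sub_mulVec, one_mulVec, ← mulVec_mulVec, dd_ell,
      mulVec_neg, hl, neg_neg, sub_self, mulVec_zero]
  have h4 : ∀ i, ∑ j, Q i j = 0 := by
    intro i
    rw [h1] at h3
    unfold offd ell at h3
    rw [fromBlocks_mulVec] at h3
    have h5 := congrFun h3 (Sum.inl i)
    simp only [Sum.elim_comp_inl, Sum.elim_comp_inr, Sum.elim_inl, Pi.zero_apply,
      zero_mulVec, zero_add] at h5
    simpa [mulVec, dotProduct] using h5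
  have h5 : ee (ex q) = Q := by
    ext i j
    simp only [ee, of_apply]
    split_ifs with h
    · rfl
    · have hij : i = j := by
        by_contra hc
        exact h hc
      subst hij
      have h6 := h4 i
      rw [← Finset.add_sum_erase _ _ (Finset.mem_univ i)] at h6
      have h7 : ∑ k, (if h : i ≠ k then ex q (Sum.inl ⟨(i, k), h⟩) else 0) =
          ∑ k ∈ Finset.univ.erase i, Q i k := by
        rw [← Finset.add_sum_erase _ _ (Finset.mem_univ i)]
        simp only [ne_eq, not_true_eq_false, dite_false, zero_add]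
        apply Finset.sum_congr rfl
        intro k hk
        have : i ≠ k := (Finset.ne_of_mem_erase hk).symm
        simp only [this, not_false_eq_true, dite_true]
        rfl
      rw [h7]
      linarith
  unfold xx
  rw [h5, ← h1]
  exact h2

theorem st_cpt : StCpt := by
  intro m k hk W hW
  -- the good neighbourhood of the base solution
  set q0 : Matrix (Ix m) (Ix m) ℝ × Matrix (Ix m) (Ix m) ℝ := (xx (e0 m), yy (e0 m)) with hq0
  set B : Matrix (Ix m) (Ix m) ℝ := offd (diagonal (f0 m)) with hB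
  have hBu : IsUnit (1 + B).det := isUnit_one_add _ (offd_transpose _)
  have hx0 : q0.1 * dd = 1 := by
    rw [hq0]
    simp only
    rw [xx_e0, dd_mul_dd]
  have hy0 : q0.2 * dd = cay B := by
    rw [hq0]
    simp only [yy]
    rw [ff_e0, Matrix.mul_assoc, dd_mul_dd, Matrix.mul_one]
  have hux : IsUnit (1 + q0.1 * dd).det := by
    rw [hx0, show (1 : Matrix (Ix m) (Ix m) ℝ) + 1 = (2 : ℝ) • 1 by rw [two_smul], det_smul,
      det_one, mul_one]
    exact (isUnit_iff_ne_zero.2 two_ne_zero).pow _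
  have huy : IsUnit (1 + q0.2 * dd).det := by
    rw [hy0]
    exact isUnit_one_add_cay B hBu
  have hex : ex q0 = e0 m := by
    funext p
    rcases p with p | p
    · simp only [ex, e0]
      rw [hx0]
      simp [cay]
    · simp only [ex]
      rw [hy0, cay_cay B hBu, hB]
      simp only [offd, fromBlocks_apply₁₂, diagonal_apply, f0, e0]
  have c1 : ContinuousAt (fun q : Matrix (Ix m) (Ix m) ℝ × Matrix (Ix m) (Ix m) ℝ =>
      cay (q.1 * dd)) q0 :=
    ContinuousAt.comp (g := cay) (f := fun q : Matrix (Ix m) (Ix m) ℝ × Matrix (Ix m) (Ix m) ℝ =>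
      q.1 * dd) (continuousAt_cay _ hux) (continuous_fst.mul continuous_const).continuousAt
  have c2 : ContinuousAt (fun q : Matrix (Ix m) (Ix m) ℝ × Matrix (Ix m) (Ix m) ℝ =>
      cay (q.2 * dd)) q0 :=
    ContinuousAt.comp (g := cay) (f := fun q : Matrix (Ix m) (Ix m) ℝ × Matrix (Ix m) (Ix m) ℝ =>
      q.2 * dd) (continuousAt_cay _ huy) (continuous_snd.mul continuous_const).continuousAt
  have c3 : ContinuousAt (ex (m := m)) q0 := by
    rw [continuousAt_pi]
    rintro (p | p)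
    · exact ContinuousAt.comp (g := fun M : Matrix (Ix m) (Ix m) ℝ =>
        M (Sum.inl p.1.1) (Sum.inr p.1.2)) (continuous_id.matrix_elem _ _).continuousAt c1
    · exact ContinuousAt.comp (g := fun M : Matrix (Ix m) (Ix m) ℝ =>
        M (Sum.inl p.1) (Sum.inr p.2)) (continuous_id.matrix_elem _ _).continuousAt c2
  have n1 : ∀ᶠ q in 𝓝 q0, IsUnit (1 + q.1 * dd).det := by
    have : Continuous fun q : Matrix (Ix m) (Ix m) ℝ × Matrix (Ix m) (Ix m) ℝ =>
        (1 + q.1 * dd).det :=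
      (continuous_const.add (continuous_fst.mul continuous_const)).matrix_det
    have h := this.continuousAt.eventually_ne (isUnit_iff_ne_zero.1 hux)
    exact h.mono fun q hq => isUnit_iff_ne_zero.2 hq
  have n2 : ∀ᶠ q in 𝓝 q0, IsUnit (1 + q.2 * dd).det := by
    have : Continuous fun q : Matrix (Ix m) (Ix m) ℝ × Matrix (Ix m) (Ix m) ℝ =>
        (1 + q.2 * dd).det :=
      (continuous_const.add (continuous_snd.mul continuous_const)).matrix_det
    have h := this.continuousAt.eventually_ne (isUnit_iff_ne_zero.1 huy)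
    exact h.mono fun q hq => isUnit_iff_ne_zero.2 hq
  have n3 : ∀ᶠ q in 𝓝 q0, ex q ∈ W := c3.eventually_mem (by rw [hex]; exact hW)
  obtain ⟨N, hN, hNo, hNq⟩ := eventually_nhds_iff.1 ((n1.and n2).and n3)
  -- the bad set is compact
  have hC : IsCompact ((invs m ×ˢ invs m) \ N) :=
    (isCompact_invs.prod isCompact_invs).diff hNo
  have hbad : ∀ q ∈ (invs m ×ˢ invs m) \ N, ∀ᶠ z : (Fin (k + 1) → Kp m → ℝ) ×
      (Matrix (Ix m) (Ix m) ℝ × Matrix (Ix m) (Ix m) ℝ) in 𝓝 (T0 m k, q),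
      ¬ Sol z.1 z.2.1 z.2.2 := by
    intro q hq
    have h1 : (T0 m k, q) ∉ {p : (Fin (k + 1) → Kp m → ℝ) ×
        (Matrix (Ix m) (Ix m) ℝ × Matrix (Ix m) (Ix m) ℝ) | Sol p.1 p.2.1 p.2.2} := by
      intro h
      obtain ⟨h2, h3⟩ := st_base m k hk _ _ h
      apply hq.2
      have : q = q0 := Prod.ext h2 h3
      rw [this]
      exact hNq
    exact (isClosed_sol (m := m) (k + 1)).isOpen_compl.mem_nhds h1
  have key := hC.eventually_forall_of_forall_eventually
    (P := fun T q => ¬ Sol T q.1 q.2) hbad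
  refine ⟨_, key, ?_⟩
  intro T hT x y hs
  have hmem : (x, y) ∈ N := by
    by_contra hc
    exact hT (x, y) ⟨⟨⟨hs.xs, hs.xi⟩, ⟨hs.ys, hs.yi⟩⟩, hc⟩ hs
  obtain ⟨⟨h1, h2⟩, h3⟩ := hN _ hmem
  exact ⟨ex (x, y), h3, chart_x (x, y) hs.xs hs.xi hs.xl h1, chart_y (x, y) hs.ys hs.yi h2⟩

theorem isClosed_good (k : ℕ) : IsClosed {T : Fin k → Kp m → ℝ | ∃ x y, Sol T x y} := by
  rw [← isOpen_compl_iff, isOpen_iff_mem_nhds]
  intro T hT
  have h1 : ∀ q ∈ invs m ×ˢ invs m, ∀ᶠ z : (Fin k → Kp m → ℝ) ×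
      (Matrix (Ix m) (Ix m) ℝ × Matrix (Ix m) (Ix m) ℝ) in 𝓝 (T, q),
      ¬ Sol z.1 z.2.1 z.2.2 := by
    intro q _
    exact (isClosed_sol (m := m) k).isOpen_compl.mem_nhds fun h => hT ⟨_, _, h⟩
  have key := (isCompact_invs.prod isCompact_invs).eventually_forall_of_forall_eventually
    (P := fun T q => ¬ Sol T q.1 q.2) h1
  refine Filter.mem_of_superset key ?_
  rintro T' hT' ⟨x, y, h⟩
  exact hT' (x, y) ⟨⟨h.xs, h.xi⟩, ⟨h.ys, h.yi⟩⟩ h

end Pool.Agent.Helper8.FH
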