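import Mathlib

/-!
# MP_121524_al : definitions for the mod 2 degree argument on Grassmannians
-/

set_option autoImplicit false

namespace Pool.Agent.Helper8.FH

open Matrix

/-- The index type: matrices of size `2 m`, in blocks. -/
abbrev Ix (m : ℕ) : Type := Fin m ⊕ Fin m

/-- The index type of the parameters of skew symmetric matrices of size `2 m` (and of the
unknowns). -/
abbrev Kp (m : ℕ) : Type := {p : Fin m × Fin m // p.1 ≠ p.2} ⊕ (Fin m × Fin m)

section Field

variable {R : Type} [Field R] {m : ℕ}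

/-- The skew symmetric matrix with the given parameters. -/
def skew (t : Kp m → R) : Matrix (Ix m) (Ix m) R :=
  fromBlocks
    (of fun i j => if h : i < j then t (Sum.inl ⟨(i, j), h.ne⟩)
      else if h : j < i then -t (Sum.inl ⟨(j, i), h.ne⟩) else 0)
    (of fun i j => t (Sum.inr (i, j)))
    (of fun i j => -t (Sum.inr (j, i)))
    (of fun i j => if h : i < j then t (Sum.inl ⟨(j, i), h.ne'⟩)
      else if h : j < i then -t (Sum.inl ⟨(i, j), h.ne'⟩) else 0)

/-- The parameters of a skew symmetric matrix. -/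
def coord (M : Matrix (Ix m) (Ix m) R) : Kp m → R
  | Sum.inl p => if p.1.1 < p.1.2 then M (Sum.inl p.1.1) (Sum.inl p.1.2)
      else M (Sum.inr p.1.2) (Sum.inr p.1.1)
  | Sum.inr p => M (Sum.inl p.1) (Sum.inr p.2)

/-- The Cayley transform. -/
noncomputable def cay (T : Matrix (Ix m) (Ix m) R) : Matrix (Ix m) (Ix m) R :=
  (1 - T) * (1 + T)⁻¹

/-- The diagonal matrix with entries `1` and `-1`. -/
def dd : Matrix (Ix m) (Ix m) R := fromBlocks 1 0 0 (-1)

/-- The vector with coordinates `0` and `1`. -/
def ell : Ix m → R := Sum.elim 0 1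

/-- The skew symmetric matrix with an off-diagonal block `E`. -/
def offd (E : Matrix (Fin m) (Fin m) R) : Matrix (Ix m) (Ix m) R := fromBlocks 0 E (-Eᵀ) 0

/-- The matrix with zero row sums and given off-diagonal entries. -/
def ee (e : Kp m → R) : Matrix (Fin m) (Fin m) R :=
  of fun i j => if h : i ≠ j then e (Sum.inl ⟨(i, j), h⟩)
    else -∑ k, if h : i ≠ k then e (Sum.inl ⟨(i, k), h⟩) else 0

/-- The matrix with the given entries. -/
def ff (e : Kp m → R) : Matrix (Fin m) (Fin m) R := of fun i j => e (Sum.inr (i, j))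

/-- The first involution with given parameters. -/
noncomputable def xx (e : Kp m → R) : Matrix (Ix m) (Ix m) R := cay (offd (ee e)) * dd

/-- The second involution with given parameters. -/
noncomputable def yy (e : Kp m → R) : Matrix (Ix m) (Ix m) R := cay (offd (ff e)) * dd

/-- The word `a 0 * x * a 1 * x * ... * a (k - 1) * x`. -/
def word {k : ℕ} (a : Fin k → Matrix (Ix m) (Ix m) R) (x : Matrix (Ix m) (Ix m) R) :
    Matrix (Ix m) (Ix m) R :=
  (List.ofFn fun i => a i * x).prod

/-- The pairs `(x, y)` of symmetric involutions solving the system with parameters `T`. -/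
structure Sol {k : ℕ} (T : Fin k → Kp m → R) (x y : Matrix (Ix m) (Ix m) R) : Prop where
  xs : xᵀ = x
  xi : x * x = 1
  xl : x *ᵥ ell = -ell
  ys : yᵀ = y
  yi : y * y = 1
  eq : word (fun i => cay (skew (T i))) x * y = 1

end Field

/-- The base parameters (of the first skew matrix) and base unknowns. -/
def e0 (m : ℕ) : Kp m → ℝ
  | Sum.inl _ => 0
  | Sum.inr p => if p.1 = p.2 then (p.1 : ℕ) + 1 else 0

/-- The base parameters. -/
def T0 (m k : ℕ) : Fin (k + 1) → Kp m → ℝ := fun i => if i = 0 then e0 m else 0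

/-- The real matrix of a complex matrix. -/
def rl {n : ℕ} (u : Matrix (Fin n) (Fin n) ℂ) : Matrix (Ix n) (Ix n) ℝ :=
  fromBlocks (u.map Complex.re) (-u.map Complex.im) (u.map Complex.im) (u.map Complex.re)

/-- The normalized Hilbert-Schmidt distance of two complex matrices. -/
noncomputable def hsd {n : ℕ} (u v : Matrix (Fin n) (Fin n) ℂ) : ℝ :=
  Real.sqrt ((∑ i, ∑ j, ‖u i j - v i j‖ ^ 2) / n)

/-- A group is hyperlinear if there are positive numbers `δ g` for `g ≠ 1` such that for every
finite set `F` and every `ε > 0` there is a map `σ` of the group to a unitary group `U(n)`, which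
is multiplicative on `F` up to `ε` in the normalized Hilbert-Schmidt distance, and moves every
`g ≠ 1` in `F` by at least `δ g`. -/
def Hyperlinear (G : Type*) [Group G] : Prop :=
  ∃ δ : G → ℝ, (∀ g, g ≠ 1 → 0 < δ g) ∧ ∀ (F : Finset G) (ε : ℝ), 0 < ε →
    ∃ (n : ℕ) (σ : G → Matrix (Fin n) (Fin n) ℂ),
      (∀ g, σ g ∈ Matrix.unitaryGroup (Fin n) ℂ) ∧
      (∀ g ∈ F, ∀ h ∈ F, hsd (σ (g * h)) (σ g * σ h) < ε) ∧
      ∀ g ∈ F, g ≠ 1 → δ g ≤ hsd (σ g) 1

end Pool.Agent.Helper8.FH
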