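import Pool.Agent.Helper8.FH.Base

/-!
# MP_121524_al : local existence and uniqueness near the base parameters
-/

set_option autoImplicit false

namespace Pool.Agent.Helper8.FH

open Matrix Topology
open scoped Matrix.Norms.Operator

section Smooth

variable {m : ℕ}

/-- `skew` as a linear map. -/
noncomputable def skewL (m : ℕ) : (Kp m → ℝ) →ₗ[ℝ] Matrix (Ix m) (Ix m) ℝ where
  toFun := skew
  map_add' s t := by
    unfold skew
    rw [fromBlocks_add]
    congr 1
    · ext i j
      simp only [of_apply, Matrix.add_apply, Pi.add_apply]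
      split_ifs <;> ring
    · ext i j
      simp only [of_apply, Matrix.add_apply, Pi.add_apply]
      ring
    · ext i j
      simp only [of_apply, Matrix.add_apply, Pi.add_apply]
      split_ifs <;> ring
  map_smul' c t := by
    unfold skew
    rw [RingHom.id_apply, fromBlocks_smul]
    congr 1
    · ext i j
      simp only [of_apply, Matrix.smul_apply, Pi.smul_apply, smul_eq_mul]
      split_ifs <;> ring
    · ext i j
      simp only [of_apply, Matrix.smul_apply, Pi.smul_apply, smul_eq_mul]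
      ring
    · ext i j
      simp only [of_apply, Matrix.smul_apply, Pi.smul_apply, smul_eq_mul]
      split_ifs <;> ring

/-- `offd` as a linear map. -/
noncomputable def offdL (m : ℕ) : Matrix (Fin m) (Fin m) ℝ →ₗ[ℝ] Matrix (Ix m) (Ix m) ℝ where
  toFun := offd
  map_add' s t := by
    unfold offd
    rw [fromBlocks_add]
    congr 1
    · simp
    · rw [transpose_add, neg_add]
    · simp
  map_smul' c t := by
    unfold offd
    rw [RingHom.id_apply, fromBlocks_smul]
    congr 1
    · simp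
    · rw [transpose_smul, smul_neg]
    · simp

/-- `ee` as a linear map. -/
noncomputable def eeL (m : ℕ) : (Kp m → ℝ) →ₗ[ℝ] Matrix (Fin m) (Fin m) ℝ where
  toFun := ee
  map_add' s t := by
    ext i j
    simp only [ee, of_apply, Matrix.add_apply, Pi.add_apply]
    split_ifs with h
    · rfl
    · rw [← neg_add, ← Finset.sum_add_distrib]
      congr 1
      apply Finset.sum_congr rfl
      intro k _
      split_ifs <;> simp
  map_smul' c t := by
    ext i j
    simp only [ee, of_apply, Matrix.smul_apply, Pi.smul_apply, smul_eq_mul, RingHom.id_apply]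
    split_ifs with h
    · rfl
    · rw [mul_neg, Finset.mul_sum]
      congr 1
      apply Finset.sum_congr rfl
      intro k _
      split_ifs <;> simp

/-- `ff` as a linear map. -/
noncomputable def ffL (m : ℕ) : (Kp m → ℝ) →ₗ[ℝ] Matrix (Fin m) (Fin m) ℝ where
  toFun := ff
  map_add' _ _ := rfl
  map_smul' _ _ := rfl

/-- `coord` as a linear map. -/
noncomputable def coordL (m : ℕ) : Matrix (Ix m) (Ix m) ℝ →ₗ[ℝ] (Kp m → ℝ) where
  toFun := coord
  map_add' s t := by
    funext p
    rcases p with p | p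
    · simp only [coord, Pi.add_apply]
      split_ifs <;> rfl
    · rfl
  map_smul' c t := by
    funext p
    rcases p with p | p
    · simp only [coord, Pi.smul_apply, RingHom.id_apply]
      split_ifs <;> rfl
    · rfl

/-- The transpose as a linear map. -/
noncomputable def trL (m : ℕ) : Matrix (Ix m) (Ix m) ℝ →ₗ[ℝ] Matrix (Ix m) (Ix m) ℝ where
  toFun M := Mᵀ
  map_add' _ _ := rfl
  map_smul' _ _ := rfl

theorem contDiff_lin {E F : Type} [NormedAddCommGroup E] [NormedSpace ℝ E]
    [FiniteDimensional ℝ E] [NormedAddCommGroup F] [NormedSpace ℝ F] (L : E →ₗ[ℝ] F) :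
    ContDiff ℝ 1 L :=
  (LinearMap.toContinuousLinearMap L).contDiff

theorem hasDerivAt_lin {E F : Type} [NormedAddCommGroup E] [NormedSpace ℝ E]
    [FiniteDimensional ℝ E] [NormedAddCommGroup F] [NormedSpace ℝ F] (L : E →ₗ[ℝ] F)
    {f : ℝ → E} {f' : E} {t : ℝ} (h : HasDerivAt f f' t) :
    HasDerivAt (fun s => L (f s)) (L f') t :=
  (LinearMap.toContinuousLinearMap L).hasFDerivAt.comp_hasDerivAt t h

theorem hasDerivAt_zero_comp {E F : Type} [NormedAddCommGroup E] [NormedSpace ℝ E]
    [NormedAddCommGroup F] [NormedSpace ℝ F] {g : E → F} {c : ℝ → E}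
    (hg : DifferentiableAt ℝ g (c 0)) (hc : HasDerivAt c 0 0) :
    HasDerivAt (fun t => g (c t)) 0 0 := by
  have h := hg.hasFDerivAt.comp_hasDerivAt (0 : ℝ) hc
  rwa [map_zero] at h

theorem contDiffAt_cay (M : Matrix (Ix m) (Ix m) ℝ) (h : IsUnit (1 + M).det) :
    ContDiffAt ℝ 1 (cay : Matrix (Ix m) (Ix m) ℝ → Matrix (Ix m) (Ix m) ℝ) M := by
  have h1 : (cay : Matrix (Ix m) (Ix m) ℝ → Matrix (Ix m) (Ix m) ℝ) =
      fun N => (1 - N) * Ring.inverse (1 + N) := by
    funext N
    unfold cay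
    rw [nonsing_inv_eq_ringInverse]
  rw [h1]
  obtain ⟨u, hu⟩ : IsUnit (1 + M) := (isUnit_iff_isUnit_det _).2 h
  apply ContDiffAt.mul
  · exact contDiffAt_const.sub contDiffAt_id
  · apply ContDiffAt.comp (g := Ring.inverse) M
    · rw [← hu]
      exact contDiffAt_ringInverse ℝ u
    · exact contDiffAt_const.add contDiffAt_id

theorem contDiff_cay_comp {E : Type} [NormedAddCommGroup E] [NormedSpace ℝ E]
    {f : E → Matrix (Ix m) (Ix m) ℝ} (hf : ContDiff ℝ 1 f) (hs : ∀ x, (f x)ᵀ = -f x) :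
    ContDiff ℝ 1 fun x => cay (f x) := by
  rw [contDiff_iff_contDiffAt]
  intro x
  exact ContDiffAt.comp (g := cay) x (contDiffAt_cay _ (isUnit_one_add _ (hs x)))
    hf.contDiffAt

theorem contDiff_cay_skew : ContDiff ℝ 1 fun t : Kp m → ℝ => cay (skew t) :=
  contDiff_cay_comp (contDiff_lin (skewL m)) fun t => skew_transpose t

theorem contDiff_xx : ContDiff ℝ 1 (xx : (Kp m → ℝ) → Matrix (Ix m) (Ix m) ℝ) := by
  unfold xx
  refine ContDiff.mul ?_ contDiff_const
  exact contDiff_cay_comp (contDiff_lin ((offdL m).comp (eeL m))) fun t => offd_transpose _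

theorem contDiff_yy : ContDiff ℝ 1 (yy : (Kp m → ℝ) → Matrix (Ix m) (Ix m) ℝ) := by
  unfold yy
  refine ContDiff.mul ?_ contDiff_const
  exact contDiff_cay_comp (contDiff_lin ((offdL m).comp (ffL m))) fun t => offd_transpose _

theorem contDiff_word {E : Type} [NormedAddCommGroup E] [NormedSpace ℝ E] {k : ℕ}
    (a : E → Fin k → Matrix (Ix m) (Ix m) ℝ) (x : E → Matrix (Ix m) (Ix m) ℝ)
    (ha : ∀ i, ContDiff ℝ 1 fun p => a p i) (hx : ContDiff ℝ 1 x) :
    ContDiff ℝ 1 fun p => word (a p) (x p) := by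
  induction k with
  | zero =>
    simp only [word, List.ofFn_zero, List.prod_nil]
    exact contDiff_const
  | succ k ih =>
    simp only [word_succ]
    exact ((ha 0).mul hx).mul (ih (fun p i => a p i.succ) (fun i => ha _))

/-- The part of the equation without the first parameter. -/
noncomputable def zz {k : ℕ} (p : Fin (k + 1) → Kp m → ℝ) : Matrix (Ix m) (Ix m) ℝ :=
  xx (p 0) * word (fun i : Fin k => cay (skew (p i.succ))) (xx (p 0)) * yy (p 0)

/-- The map whose values are the parameters. -/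
noncomputable def xi {k : ℕ} (p : Fin (k + 1) → Kp m → ℝ) : Fin (k + 1) → Kp m → ℝ :=
  Fin.cons (coord (cay (zz p)ᵀ)) (fun i => p i.succ)

theorem contDiff_zz {k : ℕ} : ContDiff ℝ 1
    (zz : (Fin (k + 1) → Kp m → ℝ) → Matrix (Ix m) (Ix m) ℝ) := by
  unfold zz
  have h0 : ∀ i : Fin (k + 1), ContDiff ℝ 1 fun p : Fin (k + 1) → Kp m → ℝ => p i :=
    fun i => contDiff_apply ℝ (Kp m → ℝ) i
  refine ContDiff.mul (ContDiff.mul (contDiff_xx.comp (h0 0)) ?_) (contDiff_yy.comp (h0 0))
  exact contDiff_word _ _ (fun i => contDiff_cay_skew.comp (h0 i.succ)) (contDiff_xx.comp (h0 0))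

theorem zz_orth {k : ℕ} (p : Fin (k + 1) → Kp m → ℝ) : zz p * (zz p)ᵀ = 1 := by
  have h1 := word_orth (fun i : Fin k => cay (skew (p i.succ))) (xx (p 0))
    (fun i => cay_mul_transpose _ (skew_transpose _)) (by rw [xx_transpose, xx_sq])
  unfold zz
  simp only [transpose_mul, Matrix.mul_assoc]
  rw [← Matrix.mul_assoc (yy (p 0)), yy_transpose, yy_sq, Matrix.one_mul,
    ← Matrix.mul_assoc (word _ _), h1, Matrix.one_mul, xx_transpose, xx_sq]

theorem pow_even {M : Type} [Monoid M] {x : M} (hx : x * x = 1) {k : ℕ} (hk : Even k) :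
    x ^ k = 1 := by
  obtain ⟨j, rfl⟩ := hk
  rw [← two_mul, pow_mul, pow_two, hx, one_pow]

theorem word_zero {k : ℕ} (hk : Even k) (p : Fin (k + 1) → Kp m → ℝ)
    (hp : ∀ i : Fin k, p i.succ = 0) : zz p = xx (p 0) * yy (p 0) := by
  unfold zz
  have h1 : (fun i : Fin k => cay (skew (p i.succ))) =
      fun _ => (1 : Matrix (Ix m) (Ix m) ℝ) := by
    funext i
    rw [hp i, skew_zero, cay_zero]
  rw [h1, word_one, pow_even (xx_sq _) hk, Matrix.mul_one]

theorem T0_zero {k : ℕ} : T0 m k 0 = e0 m := by simp [T0]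

theorem T0_succ {k : ℕ} (i : Fin k) : T0 m k i.succ = 0 := by
  simp [T0, Fin.succ_ne_zero]

theorem yy_e0 : yy (e0 m) = cay (skew (e0 m)) * dd := by
  unfold yy
  rw [ff_e0, skew_e0]

theorem zz_T0 {k : ℕ} (hk : Even k) : (zz (T0 m k))ᵀ = cay (skew (e0 m)) := by
  have h2 : dd * skew (e0 m) * dd = -skew (e0 m) := by
    rw [skew_e0]
    exact dd_offd_dd _
  rw [word_zero hk _ T0_succ, T0_zero, transpose_mul, xx_transpose, yy_transpose, xx_e0, yy_e0,
    Matrix.mul_assoc, dd_mul_dd, Matrix.mul_one]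

theorem isUnit_T0 {k : ℕ} (hk : Even k) : IsUnit (1 + (zz (T0 m k))ᵀ).det := by
  rw [zz_T0 hk]
  exact isUnit_one_add_cay _ (isUnit_one_add _ (skew_transpose _))

theorem xi_T0 {k : ℕ} (hk : Even k) : xi (T0 m k) = T0 m k := by
  unfold xi
  rw [zz_T0 hk, cay_cay _ (isUnit_one_add _ (skew_transpose _)), coord_skew, ← T0_zero (k := k)]
  exact Fin.cons_self_tail _

theorem contDiffAt_xi {k : ℕ} (hk : Even k) :
    ContDiffAt ℝ 1 (xi : (Fin (k + 1) → Kp m → ℝ) → _) (T0 m k) := by
  rw [contDiffAt_pi]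
  intro i
  refine Fin.cases ?_ (fun i => ?_) i
  · simp only [xi, Fin.cons_zero]
    have h1 : ContDiffAt ℝ 1 (fun p : Fin (k + 1) → Kp m → ℝ => cay (zz p)ᵀ) (T0 m k) :=
      ContDiffAt.comp (g := cay) (T0 m k) (contDiffAt_cay _ (isUnit_T0 hk))
        ((contDiff_lin (trL m)).comp contDiff_zz).contDiffAt
    exact (contDiff_lin (coordL m)).contDiffAt.comp (T0 m k) h1
  · simp only [xi, Fin.cons_succ]
    exact (contDiff_apply ℝ (Kp m → ℝ) i.succ).contDiffAt

/-- The solutions in the chart are the solutions of `xi p = T`. -/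
theorem sol_of_xi {k : ℕ} (T : Fin (k + 1) → Kp m → ℝ) (p : Fin (k + 1) → Kp m → ℝ)
    (hu : IsUnit (1 + (zz p)ᵀ).det) (h : xi p = T) : Sol T (xx (p 0)) (yy (p 0)) := by
  apply sol_chart
  have hO : (zz p)ᵀ * ((zz p)ᵀ)ᵀ = 1 := by
    rw [transpose_transpose]
    exact mul_eq_one_comm.1 (zz_orth p)
  have h1 : skew (T 0) = cay (zz p)ᵀ := by
    rw [← h]
    simp only [xi, Fin.cons_zero]
    exact skew_coord _ (cay_skew _ hO hu)
  have h2 : (fun i : Fin k => cay (skew (T i.succ))) = fun i => cay (skew (p i.succ)) := by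
    funext i
    rw [← h]
    rfl
  rw [word_succ, h1, cay_cay _ hu, h2]
  have h3 := mul_eq_one_comm.1 (zz_orth p)
  rw [← h3]
  unfold zz
  simp only [Matrix.mul_assoc]

theorem xi_of_sol {k : ℕ} (T : Fin (k + 1) → Kp m → ℝ) (e : Kp m → ℝ)
    (h : Sol T (xx e) (yy e)) : xi (Fin.cons e fun i => T i.succ) = T := by
  set p : Fin (k + 1) → Kp m → ℝ := Fin.cons e fun i => T i.succ with hp
  have h1 : cay (skew (T 0)) * zz p = 1 := by
    have := h.eq
    rw [word_succ] at this
    rw [← this]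
    unfold zz
    rw [hp]
    simp only [Fin.cons_zero, Fin.cons_succ, Matrix.mul_assoc]
  have h2 : (zz p)ᵀ = cay (skew (T 0)) := by
    calc (zz p)ᵀ = cay (skew (T 0)) * zz p * (zz p)ᵀ := by rw [h1, Matrix.one_mul]
      _ = cay (skew (T 0)) := by rw [Matrix.mul_assoc, zz_orth, Matrix.mul_one]
  unfold xi
  rw [h2, cay_cay _ (isUnit_one_add _ (skew_transpose _)), coord_skew, hp]
  simp only [Fin.cons_succ]
  exact Fin.cons_self_tail _

end Smooth

section Deriv

variable {m : ℕ}

theorem offd_inj {E F : Matrix (Fin m) (Fin m) ℝ} (h : offd E = offd F) : E = F := by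
  unfold offd at h
  exact (fromBlocks_inj.1 h).2.1

/-- An off-diagonal skew matrix with zero row sums commuting with the base matrix is zero. -/
theorem comm_zero (E : Matrix (Fin m) (Fin m) ℝ) (hE : E *ᵥ 1 = 0)
    (h : Commute (offd E) (offd (diagonal (f0 m)))) : E = 0 := by
  set F : Matrix (Fin m) (Fin m) ℝ := diagonal (f0 m) with hF
  have h1 : offd E * offd F = offd F * offd E := h
  unfold offd at h1
  rw [fromBlocks_multiply, fromBlocks_multiply, fromBlocks_inj] at h1
  have hFt : Fᵀ = F := diagonal_transpose _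
  simp only [hFt, Matrix.mul_zero, Matrix.zero_mul, add_zero, zero_add, Matrix.mul_neg,
    Matrix.neg_mul, neg_inj] at h1
  obtain ⟨a1, -, -, a4⟩ := h1
  have hc : E * (F * F) = F * F * E := by
    calc E * (F * F) = E * F * F := by rw [Matrix.mul_assoc]
      _ = F * (Eᵀ * F) := by rw [a1, Matrix.mul_assoc]
      _ = F * F * E := by rw [a4, Matrix.mul_assoc]
  have hd := diag_of_comm E hc
  ext i j
  by_cases hij : i = j
  · subst hij
    have h2 := congrFun hE i
    simp only [mulVec, dotProduct, Pi.one_apply, mul_one, Pi.zero_apply] at h2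
    rw [Finset.sum_eq_single i (fun b _ hb => hd i b (Ne.symm hb)) (by simp)] at h2
    rw [h2]
    rfl
  · rw [hd i j hij]
    rfl

theorem deriv_inj {k : ℕ} (hk : Even k) (f' : (Fin (k + 1) → Kp m → ℝ) →L[ℝ]
    (Fin (k + 1) → Kp m → ℝ)) (hf : HasFDerivAt xi f' (T0 m k))
    (v : Fin (k + 1) → Kp m → ℝ) (hv : f' v = 0) : v = 0 := by
  set γ : ℝ → (Fin (k + 1) → Kp m → ℝ) := fun t => T0 m k + t • v with hγ
  have hγ0 : γ 0 = T0 m k := by simp [hγ]
  have hγd : HasDerivAt γ v 0 := by
    have := ((hasDerivAt_id (0 : ℝ)).smul_const v).const_add (T0 m k)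
    rw [one_smul] at this
    exact this
  have hxi : HasDerivAt (fun t => xi (γ t)) 0 0 := by
    rw [← hv]
    exact HasFDerivAt.comp_hasDerivAt (0 : ℝ) (by rw [hγ0]; exact hf) hγd
  rw [hasDerivAt_pi] at hxi
  -- the other parameters do not move
  have hvs : ∀ i : Fin k, v i.succ = 0 := by
    intro i
    have h1 := hxi i.succ
    simp only [xi, Fin.cons_succ] at h1
    have h2 : HasDerivAt (fun t => γ t i.succ) (v i.succ) 0 := (hasDerivAt_pi.1 hγd) i.succ
    exact h2.unique h1
  have hγs : ∀ t, ∀ i : Fin k, γ t i.succ = 0 := by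
    intro t i
    simp [hγ, T0_succ, hvs i]
  set v0 : Kp m → ℝ := v 0 with hv0
  set et : ℝ → Kp m → ℝ := fun t => e0 m + t • v0 with het
  have hγe : ∀ t, γ t 0 = et t := by
    intro t
    simp [hγ, het, T0_zero, hv0]
  have het0 : et 0 = e0 m := by simp [het]
  have hetd : HasDerivAt et v0 0 := by
    have := ((hasDerivAt_id (0 : ℝ)).smul_const v0).const_add (e0 m)
    rw [one_smul] at this
    exact this
  have hz : ∀ t, zz (γ t) = xx (et t) * yy (et t) := by
    intro t
    rw [word_zero hk _ (hγs t), hγe]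
  -- the derivative of the Cayley transform of the transpose vanishes
  have hzc : Continuous fun t => (zz (γ t))ᵀ := by
    have h1 : Continuous γ := by
      rw [hγ]
      fun_prop
    exact (contDiff_zz.continuous.comp h1).matrix_transpose
  have hunit : ∀ᶠ t in 𝓝 (0 : ℝ), IsUnit (1 + (zz (γ t))ᵀ).det := by
    have h1 : Continuous fun t => (1 + (zz (γ t))ᵀ).det :=
      (continuous_const.add hzc).matrix_det
    have h2 : (1 + (zz (γ 0))ᵀ).det ≠ 0 := by
      rw [hγ0]
      exact isUnit_iff_ne_zero.1 (isUnit_T0 hk)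
    exact (h1.continuousAt.eventually_ne h2).mono fun t ht => isUnit_iff_ne_zero.2 ht
  have hO : ∀ t, (zz (γ t))ᵀ * ((zz (γ t))ᵀ)ᵀ = 1 := by
    intro t
    rw [transpose_transpose]
    exact mul_eq_one_comm.1 (zz_orth _)
  have hc : HasDerivAt (fun t => cay (zz (γ t))ᵀ) 0 0 := by
    have h1 := hxi 0
    simp only [xi, Fin.cons_zero] at h1
    have h2 := hasDerivAt_lin (skewL m) h1
    have h3 : skewL m ((0 : Fin (k + 1) → Kp m → ℝ) 0) = 0 := by
      rw [Pi.zero_apply, map_zero]
    rw [h3] at h2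
    apply h2.congr_of_eventuallyEq
    filter_upwards [hunit] with t ht
    exact (skew_coord _ (cay_skew _ (hO t) ht)).symm
  have hcu : IsUnit (1 + cay (zz (γ 0))ᵀ).det :=
    isUnit_one_add_cay _ hunit.self_of_nhds
  have hzt : HasDerivAt (fun t => (zz (γ t))ᵀ) 0 0 := by
    have h2 := hasDerivAt_zero_comp
      ((contDiffAt_cay _ hcu).differentiableAt (by norm_num)) hc
    apply h2.congr_of_eventuallyEq
    filter_upwards [hunit] with t ht
    exact (cay_cay _ ht).symm
  have hzd : HasDerivAt (fun t => zz (γ t)) 0 0 := by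
    have h1 := hasDerivAt_lin (trL m) hzt
    rw [map_zero] at h1
    exact h1
  have hxd : DifferentiableAt ℝ (fun t => xx (et t)) 0 :=
    ((contDiff_xx.differentiable (by norm_num)).differentiableAt).comp (0 : ℝ)
      hetd.differentiableAt
  have hyd : DifferentiableAt ℝ (fun t => yy (et t)) 0 :=
    ((contDiff_yy.differentiable (by norm_num)).differentiableAt).comp (0 : ℝ)
      hetd.differentiableAt
  set x' := deriv (fun t => xx (et t)) 0 with hx'
  set y' := deriv (fun t => yy (et t)) 0 with hy'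
  have hx1 : HasDerivAt (fun t => xx (et t)) x' 0 := hxd.hasDerivAt
  have hy1 : HasDerivAt (fun t => yy (et t)) y' 0 := hyd.hasDerivAt
  set y0 : Matrix (Ix m) (Ix m) ℝ := yy (e0 m) with hy0
  have hprod : x' * y0 + dd * y' = 0 := by
    have h1 := hx1.mul hy1
    rw [het0, xx_e0] at h1
    have h2 : HasDerivAt (fun t => xx (et t) * yy (et t)) 0 0 := by
      have : (fun t => xx (et t) * yy (et t)) = fun t => zz (γ t) := by
        funext t
        rw [hz]
      rw [this]
      exact hzd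
    exact (h1.unique h2)
  have hy2 : y' * y0 + y0 * y' = 0 := by
    have h1 := hy1.mul hy1
    rw [het0] at h1
    have h2 : HasDerivAt (fun t => yy (et t) * yy (et t)) 0 0 := by
      have : (fun t => yy (et t) * yy (et t)) = fun _ => (1 : Matrix (Ix m) (Ix m) ℝ) := by
        funext t
        rw [yy_sq]
      rw [this]
      exact hasDerivAt_const _ _
    exact (h1.unique h2)
  -- the derivative of x
  set A : Matrix (Ix m) (Ix m) ℝ := offd (ee v0) with hA
  have hAt : ∀ t, offd (ee (et t)) = t • A := by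
    intro t
    have : (offdL m) ((eeL m) (et t)) = t • (offdL m) ((eeL m) v0) := by
      rw [het]
      simp only [map_add, map_smul]
      have h0 : (eeL m) (e0 m) = 0 := ee_e0
      rw [h0, map_zero, zero_add]
    exact this
  have hx'A : x' = (-2 : ℝ) • (A * dd) := by
    have h1 : ∀ t, xx (et t) * dd * (1 + t • A) = 1 - t • A := by
      intro t
      unfold xx
      rw [hAt, Matrix.mul_assoc (cay _), dd_mul_dd, Matrix.mul_one, cay_mul]
      rw [← hAt]
      exact isUnit_one_add _ (offd_transpose _)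
    have h2 : HasDerivAt (fun t : ℝ => (1 : Matrix (Ix m) (Ix m) ℝ) + t • A) A 0 := by
      have := ((hasDerivAt_id (0 : ℝ)).smul_const A).const_add (1 : Matrix (Ix m) (Ix m) ℝ)
      rw [one_smul] at this
      exact this
    have h3 : HasDerivAt (fun t : ℝ => (1 : Matrix (Ix m) (Ix m) ℝ) - t • A) (-A) 0 := by
      have := ((hasDerivAt_id (0 : ℝ)).smul_const A).const_sub (1 : Matrix (Ix m) (Ix m) ℝ)
      rw [one_smul] at this
      exact this
    have h4 := (hx1.mul_const dd).mul h2
    have h5 : (fun t => xx (et t) * dd * (1 + t • A)) =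
        fun t : ℝ => (1 : Matrix (Ix m) (Ix m) ℝ) - t • A := by
      funext t
      exact h1 t
    have h6 : HasDerivAt (fun t => xx (et t) * dd * (1 + t • A)) (-A) 0 := by
      rw [h5]
      exact h3
    have h7 := h4.unique h6
    rw [het0, xx_e0, dd_mul_dd, zero_smul, add_zero, Matrix.mul_one, Matrix.one_mul] at h7
    have h8 : x' * dd = (-2 : ℝ) • A := by
      rw [neg_smul, two_smul, neg_add]
      exact eq_add_neg_of_add_eq h7
    calc x' = x' * dd * dd := by rw [Matrix.mul_assoc, dd_mul_dd, Matrix.mul_one]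
      _ = _ := by rw [h8, smul_mul]
  have hdA : dd * A = -(A * dd) := dd_offd _
  have hy0s : y0 * y0 = 1 := yy_sq _
  have hy'A : y' = (-2 : ℝ) • (A * y0) := by
    have h1 : dd * (x' * y0 + dd * y') = 0 := by rw [hprod, Matrix.mul_zero]
    rw [Matrix.mul_add, ← Matrix.mul_assoc dd dd, dd_mul_dd, Matrix.one_mul, hx'A] at h1
    have h2 : dd * ((-2 : ℝ) • (A * dd) * y0) = (2 : ℝ) • (A * y0) := by
      rw [smul_mul, Matrix.mul_smul, ← Matrix.mul_assoc, ← Matrix.mul_assoc, hdA,
        Matrix.neg_mul, Matrix.mul_assoc A, dd_mul_dd, Matrix.mul_one, Matrix.neg_mul]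
      simp
    rw [h2] at h1
    rw [neg_smul]
    exact eq_neg_of_add_eq_zero_right h1
  have hAy : A * y0 = -(y0 * A) := by
    rw [hy'A] at hy2
    have h1 : (-2 : ℝ) • (A + y0 * A * y0) = 0 := by
      rw [← hy2, smul_mul, Matrix.mul_smul, Matrix.mul_assoc A, hy0s, Matrix.mul_one, smul_add,
        Matrix.mul_assoc]
    have h2 : A + y0 * A * y0 = 0 := (smul_eq_zero.1 h1).resolve_left (by norm_num)
    have h3 : (A + y0 * A * y0) * y0 = 0 := by rw [h2, Matrix.zero_mul]
    rw [Matrix.add_mul, Matrix.mul_assoc (y0 * A), hy0s, Matrix.mul_one] at h3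
    exact eq_neg_of_add_eq_zero_left h3
  have hcom : Commute A (cay (skew (e0 m))) := by
    have h1 : cay (skew (e0 m)) = y0 * dd := by
      rw [hy0, yy_e0, Matrix.mul_assoc, dd_mul_dd, Matrix.mul_one]
    rw [h1]
    change A * (y0 * dd) = y0 * dd * A
    rw [← Matrix.mul_assoc, hAy, Matrix.neg_mul, Matrix.mul_assoc, Matrix.mul_assoc, hdA,
      Matrix.mul_neg]
  have hBu : IsUnit (1 + skew (e0 m)).det := isUnit_one_add _ (skew_transpose _)
  have hcom2 : Commute A (offd (diagonal (f0 m))) := by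
    have h1 := commute_cay (isUnit_one_add_cay _ hBu) hcom
    rw [cay_cay _ hBu, skew_e0] at h1
    exact h1
  have hE : ee v0 = 0 := comm_zero _ (ee_one v0) hcom2
  have hA0 : A = 0 := by rw [hA, hE, offd_zero]
  have hy'0 : y' = 0 := by rw [hy'A, hA0, Matrix.zero_mul, smul_zero]
  have hF : ff v0 = 0 := by
    have h1 : HasDerivAt (fun t => yy (et t) * dd) 0 0 := by
      have := hy1.mul_const dd
      rw [hy'0, Matrix.zero_mul] at this
      exact this
    have h2 : ∀ t, yy (et t) * dd = cay (offd (ff (et t))) := by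
      intro t
      unfold yy
      rw [Matrix.mul_assoc, dd_mul_dd, Matrix.mul_one]
    have hu : ∀ t, IsUnit (1 + offd (ff (et t))).det :=
      fun t => isUnit_one_add _ (offd_transpose _)
    have h3 : DifferentiableAt ℝ (cay : Matrix (Ix m) (Ix m) ℝ → Matrix (Ix m) (Ix m) ℝ)
        (yy (et 0) * dd) := by
      refine (contDiffAt_cay _ ?_).differentiableAt (by norm_num)
      rw [h2]
      exact isUnit_one_add_cay _ (hu 0)
    have h4 := hasDerivAt_zero_comp h3 h1
    have h5 : (fun t => cay (yy (et t) * dd)) = fun t => offd (ff (et t)) := by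
      funext t
      rw [h2, cay_cay _ (hu t)]
    rw [h5] at h4
    have h6 : HasDerivAt (fun t => offd (ff (et t))) (offd (ff v0)) 0 :=
      hasDerivAt_lin ((offdL m).comp (ffL m)) hetd
    have h7 := h6.unique h4
    apply offd_inj
    rw [h7, offd_zero]
  have hv00 : v0 = 0 := by
    funext p
    rcases p with ⟨⟨i, j⟩, hij⟩ | ⟨i, j⟩
    · have := congrFun (congrFun hE i) j
      simpa [ee, hij] using this
    · exact congrFun (congrFun hF i) j
  funext i
  refine Fin.cases ?_ (fun i => ?_) i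
  · exact hv00
  · exact hvs i

theorem st_loc : StLoc := by
  intro m k hk
  have hcd := contDiffAt_xi (m := m) hk
  have hsd : HasStrictFDerivAt (xi : (Fin (k + 1) → Kp m → ℝ) → _) (fderiv ℝ xi (T0 m k))
      (T0 m k) := hcd.hasStrictFDerivAt (by norm_num)
  have hinj : Function.Injective (fderiv ℝ xi (T0 m k)) := by
    rw [injective_iff_map_eq_zero]
    intro v hv
    exact deriv_inj hk _ hsd.hasFDerivAt v hv
  let L : (Fin (k + 1) → Kp m → ℝ) ≃L[ℝ] (Fin (k + 1) → Kp m → ℝ) :=
    (LinearEquiv.ofInjectiveEndo (fderiv ℝ xi (T0 m k) :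
      (Fin (k + 1) → Kp m → ℝ) →ₗ[ℝ] (Fin (k + 1) → Kp m → ℝ)) hinj).toContinuousLinearEquiv
  have hL : HasStrictFDerivAt (xi : (Fin (k + 1) → Kp m → ℝ) → _)
      (L : (Fin (k + 1) → Kp m → ℝ) →L[ℝ] (Fin (k + 1) → Kp m → ℝ)) (T0 m k) := by
    have hLe : (L : (Fin (k + 1) → Kp m → ℝ) →L[ℝ] (Fin (k + 1) → Kp m → ℝ)) =
        fderiv ℝ xi (T0 m k) := ContinuousLinearMap.ext fun v => rfl
    rw [hLe]
    exact hsd
  set Φ := hL.toOpenPartialHomeomorph xi with hΦ
  have hsrc : T0 m k ∈ Φ.source := hL.mem_toOpenPartialHomeomorph_source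
  have hxiT : xi (T0 m k) = T0 m k := xi_T0 hk
  have htgt : T0 m k ∈ Φ.target := by
    have := hL.image_mem_toOpenPartialHomeomorph_target
    rwa [hxiT] at this
  have hsym : Φ.symm (T0 m k) = T0 m k := by
    have := Φ.left_inv hsrc
    rwa [hL.toOpenPartialHomeomorph_coe, hxiT] at this
  -- neighbourhoods
  have hcons : Continuous fun q : (Kp m → ℝ) × (Fin (k + 1) → Kp m → ℝ) =>
      (Fin.cons q.1 (fun i => q.2 i.succ) : Fin (k + 1) → Kp m → ℝ) := by
    apply continuous_pi
    intro i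
    refine Fin.cases ?_ (fun i => ?_) i
    · simpa using continuous_fst
    · simp only [Fin.cons_succ]
      fun_prop
  have hc0 : (Fin.cons (e0 m) (fun i => T0 m k i.succ) : Fin (k + 1) → Kp m → ℝ) = T0 m k := by
    rw [← T0_zero (k := k)]
    exact Fin.cons_self_tail _
  have h1 : ∀ᶠ q : (Kp m → ℝ) × (Fin (k + 1) → Kp m → ℝ) in 𝓝 (e0 m, T0 m k),
      (Fin.cons q.1 (fun i => q.2 i.succ) : Fin (k + 1) → Kp m → ℝ) ∈ Φ.source := by
    apply hcons.continuousAt.eventually_mem
    rw [hc0]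
    exact Φ.open_source.mem_nhds hsrc
  rw [nhds_prod_eq] at h1
  obtain ⟨W, hW, V1, hV1, hWV⟩ := Filter.mem_prod_iff.1 h1
  -- existence
  have hsc : ContinuousAt Φ.symm (T0 m k) := Φ.continuousAt_symm htgt
  have hsc0 : ContinuousAt (fun T => Φ.symm T 0) (T0 m k) :=
    (continuous_apply 0).continuousAt.comp hsc
  have h2 : ∀ᶠ T in 𝓝 (T0 m k), Φ.symm T 0 ∈ W := by
    apply hsc0.eventually_mem
    rw [hsym, T0_zero]
    exact hW
  have h3 : ∀ᶠ T in 𝓝 (T0 m k), IsUnit (1 + (zz (Φ.symm T))ᵀ).det := by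
    have h4 : ContinuousAt (fun T => (1 + (zz (Φ.symm T))ᵀ).det) (T0 m k) := by
      have h5 : Continuous fun p : Fin (k + 1) → Kp m → ℝ => (1 + (zz p)ᵀ).det :=
        (continuous_const.add contDiff_zz.continuous.matrix_transpose).matrix_det
      exact h5.continuousAt.comp hsc
    have h5 : (1 + (zz (Φ.symm (T0 m k)))ᵀ).det ≠ 0 := by
      rw [hsym]
      exact isUnit_iff_ne_zero.1 (isUnit_T0 hk)
    exact (h4.eventually_ne h5).mono fun t ht => isUnit_iff_ne_zero.2 ht
  have h4 : ∀ᶠ T in 𝓝 (T0 m k), T ∈ Φ.target := Φ.open_target.mem_nhds htgt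
  have h5 : ∀ᶠ T in 𝓝 (T0 m k), T ∈ V1 := hV1
  refine ⟨_, ((h2.and h3).and h4).and h5, W, hW, ?_, ?_⟩
  · rintro T ⟨⟨⟨hT2, hT3⟩, hT4⟩, -⟩
    refine ⟨_, hT2, ?_⟩
    apply sol_of_xi T _ hT3
    have := Φ.right_inv hT4
    rwa [hL.toOpenPartialHomeomorph_coe] at this
  · rintro T ⟨-, hT5⟩ e he e' he' hs hs'
    have g1 : (Fin.cons e (fun i => T i.succ) : Fin (k + 1) → Kp m → ℝ) ∈ Φ.source :=
      hWV (Set.mk_mem_prod he hT5)
    have g2 : (Fin.cons e' (fun i => T i.succ) : Fin (k + 1) → Kp m → ℝ) ∈ Φ.source :=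
      hWV (Set.mk_mem_prod he' hT5)
    have g3 := Φ.injOn g1 g2 (by
      rw [hL.toOpenPartialHomeomorph_coe, xi_of_sol T e hs, xi_of_sol T e' hs'])
    have := congrFun g3 0
    simpa using this

end Deriv

end Pool.Agent.Helper8.FH
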