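import Pool.Agent.Helper8.FH.Defs

/-!
# MP_121524_al : residually finite groups are hyperlinear (a sanity check of the definition)
-/

set_option autoImplicit false

namespace Pool.Agent.Helper8.FH

open Matrix

/-- The permutation matrix of a permutation. -/
def pm {n : ℕ} (p : Equiv.Perm (Fin n)) : Matrix (Fin n) (Fin n) ℂ :=
  of fun i j => if p j = i then 1 else 0

theorem pm_mul {n : ℕ} (p q : Equiv.Perm (Fin n)) : pm (p * q) = pm p * pm q := by
  ext i j
  simp only [pm, of_apply, mul_apply, Equiv.Perm.mul_apply]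
  rw [Finset.sum_eq_single (q j)]
  · rw [if_pos rfl, mul_one]
    congr 1
  · intro b _ hb
    rw [if_neg (fun h => hb h.symm) (c := q j = b), mul_zero]
  · intro h
    exact absurd (Finset.mem_univ _) h

theorem pm_one {n : ℕ} : pm (1 : Equiv.Perm (Fin n)) = 1 := by
  ext i j
  simp only [pm, of_apply, Equiv.Perm.one_apply, Matrix.one_apply]
  simp only [eq_comm]

theorem pm_star {n : ℕ} (p : Equiv.Perm (Fin n)) : star (pm p) = pm p⁻¹ := by
  ext i j
  simp only [pm, star_apply, of_apply]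
  by_cases h : p i = j
  · rw [if_pos h, if_pos (by rw [← h]; simp)]
    simp
  · rw [if_neg h, if_neg]
    · simp
    · intro h'
      apply h
      rw [← h']
      simp

theorem pm_unitary {n : ℕ} (p : Equiv.Perm (Fin n)) : pm p ∈ Matrix.unitaryGroup (Fin n) ℂ := by
  rw [mem_unitaryGroup_iff, pm_star, ← pm_mul, mul_inv_cancel, pm_one]

theorem hsd_pm {n : ℕ} (hn : n ≠ 0) (p : Equiv.Perm (Fin n)) (hp : ∀ i, p i ≠ i) :
    1 ≤ hsd (pm p) 1 := by
  unfold hsd
  rw [Real.one_le_sqrt, one_le_div (by positivity)]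
  have h1 : ∀ i : Fin n, (1 : ℝ) ≤ ∑ j, ‖pm p i j - (1 : Matrix (Fin n) (Fin n) ℂ) i j‖ ^ 2 := by
    intro i
    have h2 : (1 : ℝ) = ‖pm p i i - (1 : Matrix (Fin n) (Fin n) ℂ) i i‖ ^ 2 := by
      simp only [pm, of_apply, Matrix.one_apply_eq]
      rw [if_neg (hp i)]
      simp
    nth_rewrite 1 [h2]
    exact Finset.single_le_sum
      (f := fun j => ‖pm p i j - (1 : Matrix (Fin n) (Fin n) ℂ) i j‖ ^ 2)
      (fun j _ => sq_nonneg _) (Finset.mem_univ i)
  calc (n : ℝ) = ∑ _i : Fin n, (1 : ℝ) := by simp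
    _ ≤ _ := Finset.sum_le_sum fun i _ => h1 i

/-- Residually finite groups are hyperlinear. -/
theorem hyperlinear_of_residuallyFinite (G : Type*) [Group G] [Group.ResiduallyFinite G] :
    Hyperlinear G := by
  classical
  refine ⟨fun _ => 1, fun _ _ => one_pos, ?_⟩
  intro F ε hε
  have hex : ∀ g : G, ∃ H : Subgroup G, H.Normal ∧ H.FiniteIndex ∧ (g ≠ 1 → g ∉ H) := by
    intro g
    by_cases hg : g = 1
    · exact ⟨⊤, inferInstance, inferInstance, fun h => absurd hg h⟩
    · obtain ⟨H, hH⟩ := Group.exists_finiteIndexNormalSubgroup_notMem g hg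
      exact ⟨H.toSubgroup, inferInstance, inferInstance, fun _ => hH⟩
  choose H hHn hHf hHg using hex
  let N : Subgroup G := ⨅ g : F, H g
  haveI : N.Normal := Subgroup.normal_iInf_normal fun g => hHn g
  haveI : N.FiniteIndex := by
    haveI := fun g : F => hHf g
    exact Subgroup.finiteIndex_iInf fun g : F => hHf g
  have hN : ∀ g ∈ F, g ≠ 1 → g ∉ N := by
    intro g hg hg1 hgN
    exact hHg g hg1 ((Subgroup.mem_iInf.1 hgN) ⟨g, hg⟩)
  let e : (G ⧸ N) ≃ Fin (Nat.card (G ⧸ N)) := Finite.equivFin _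
  let ρ : G → Equiv.Perm (Fin (Nat.card (G ⧸ N))) := fun g =>
    (e.symm.trans (Equiv.mulLeft (g : G ⧸ N))).trans e
  have hρ : ∀ g h, ρ (g * h) = ρ g * ρ h := by
    intro g h
    ext i
    simp [ρ]
  have hn : Nat.card (G ⧸ N) ≠ 0 := Nat.card_pos.ne'
  refine ⟨Nat.card (G ⧸ N), fun g => pm (ρ g), fun g => pm_unitary _, ?_, ?_⟩
  · intro g _ h _
    simp only [hρ, pm_mul]
    unfold hsd
    simpa using hε
  · intro g hg hg1
    apply hsd_pm hn
    intro i hi
    apply hN g hg hg1
    have h1 : (g : G ⧸ N) * e.symm i = e.symm i := by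
      have := congrArg e.symm hi
      simpa [ρ] using this
    have h2 : (g : G ⧸ N) = 1 := mul_eq_right.1 h1
    exact (QuotientGroup.eq_one_iff g).1 h2

end Pool.Agent.Helper8.FH
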