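import Pool.Agent.Helper8.FH.Defs

/-!
# MP_121524_al : the statements of the modules
-/

set_option autoImplicit false

namespace Pool.Agent.Helper8.FH

open Matrix Topology

/-- Module FH1: an automorphism of the complex field moving algebraically independent real numbers
by rational numbers. -/
def StAut : Prop :=
  ∀ (κ : Type) [Finite κ] (T : κ → ℝ), AlgebraicIndependent ℚ T → ∀ q : κ → ℚ,
    ∃ σ : ℂ ≃+* ℂ, ∀ i, σ (T i : ℂ) = (T i : ℂ) + ((q i : ℚ) : ℂ)

/-- Module FH2: the parity lemma. -/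
def StPar : Prop :=
  ∀ (κ N : Type) [Finite κ] [Finite N] (T : κ → ℝ) (q : κ → ℚ) (S S' : Set (N → ℂ)),
    AlgebraicIndependent ℚ T →
    (∀ γ : ℂ ≃+* ℂ, (∀ i, γ (T i : ℂ) = (T i : ℂ)) → ∀ s ∈ S, (fun n => γ (s n)) ∈ S) →
    (∀ σ : ℂ ≃+* ℂ, (∀ i, σ (T i : ℂ) = (T i : ℂ) + ((q i : ℚ) : ℂ)) →
      ∀ s ∈ S, (fun n => σ (s n)) ∈ S') →
    ∀ s0 : N → ℝ, (fun n => (s0 n : ℂ)) ∈ S →
    (∀ s : N → ℝ, (fun n => (s n : ℂ)) ∈ S → s = s0) →
    (∀ n, IsAlgebraic (Algebra.adjoin ℚ (Set.range T)) (s0 n)) →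
    ∃ s : N → ℝ, (fun n => (s n : ℂ)) ∈ S'

/-- Module FH3a: counting transcendence degrees. -/
def StTrd : Prop :=
  ∀ (κ : Type) [Finite κ] (u T : κ → ℝ), AlgebraicIndependent ℚ T →
    (∀ i, T i ∈ IntermediateField.adjoin ℚ (Set.range u)) →
    ∀ z ∈ IntermediateField.adjoin ℚ (Set.range u),
      IsAlgebraic (Algebra.adjoin ℚ (Set.range T)) z

/-- Module FH3b: algebraically independent points are dense. -/
def StGen : Prop :=
  ∀ (κ : Type) [Finite κ] (U : Set (κ → ℝ)), IsOpen U → U.Nonempty →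
    ∃ T ∈ U, AlgebraicIndependent ℚ T

/-- Module FH4: algebraicity of the solutions in the charts. -/
def StAlg : Prop :=
  ∀ (m k : ℕ) (T : Fin (k + 1) → Kp m → ℝ) (e : Kp m → ℝ),
    AlgebraicIndependent ℚ (fun p : Fin (k + 1) × Kp m => T p.1 p.2) →
    Sol T (xx e) (yy e) → ∀ i j,
      IsAlgebraic (Algebra.adjoin ℚ (Set.range fun p : Fin (k + 1) × Kp m => T p.1 p.2))
        (xx e i j) ∧
      IsAlgebraic (Algebra.adjoin ℚ (Set.range fun p : Fin (k + 1) × Kp m => T p.1 p.2))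
        (yy e i j)

/-- Module FH5: at the base parameters there is only one solution. -/
def StBase : Prop :=
  ∀ (m k : ℕ), Even k → ∀ x y, Sol (T0 m k) x y → x = xx (e0 m) ∧ y = yy (e0 m)

/-- Module FH6: near the base there is one and only one solution near the base solution. -/
def StLoc : Prop :=
  ∀ (m k : ℕ), Even k → ∃ V ∈ 𝓝 (T0 m k), ∃ W ∈ 𝓝 (e0 m),
    (∀ T ∈ V, ∃ e ∈ W, Sol T (xx e) (yy e)) ∧
    ∀ T ∈ V, ∀ e ∈ W, ∀ e' ∈ W, Sol T (xx e) (yy e) → Sol T (xx e') (yy e') → e = e'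

/-- Module FH7: near the base all solutions are near the base solution. -/
def StCpt : Prop :=
  ∀ (m k : ℕ), Even k → ∀ W ∈ 𝓝 (e0 m), ∃ V ∈ 𝓝 (T0 m k), ∀ T ∈ V, ∀ x y,
    Sol T x y → ∃ e ∈ W, x = xx e ∧ y = yy e

/-- Module FH8: there is a solution for all parameters. -/
def StAll : Prop :=
  ∀ (m k : ℕ), Even k → ∀ T : Fin (k + 1) → Kp m → ℝ, ∃ x y, Sol T x y

/-- Module FH9: the case of unitary matrices. -/
def StUni : Prop :=
  ∀ (n k : ℕ), Even k → ∀ u : Fin (k + 1) → Matrix (Fin n) (Fin n) ℂ,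
    (∀ i, u i ∈ Matrix.unitaryGroup (Fin n) ℂ) →
    ∃ x : Matrix (Ix n) (Ix n) ℝ, xᵀ = x ∧ x * x = 1 ∧
      word (fun i => rl (u i)) x * word (fun i => rl (u i)) x = 1

universe u v

/-- Module FH10: solutions in an overgroup (a metric reduced product of orthogonal groups). -/
def StQuo : Prop :=
  ∀ (A : Type u) [Group A], Hyperlinear A → ∀ k : ℕ, Even k → ∀ a : Fin (k + 1) → A,
    ∃ (Q : Type u) (_ : Group Q) (f : A →* Q) (x : Q), Function.Injective f ∧ x * x = 1 ∧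
      (List.ofFn fun i => f (a i) * x).prod * (List.ofFn fun i => f (a i) * x).prod = 1

/-- Module FH11: the Freiheitssatz. -/
def StFin : Prop :=
  ∀ (A : Type u) (B : Type v) [Group A] [Group B], Hyperlinear A →
    ∀ (φ : B →* Multiplicative (ZMod 2)) (r : Monoid.Coprod A B),
      Monoid.Coprod.lift (1 : A →* Multiplicative (ZMod 2)) φ r ≠ 1 → ∀ m : ℕ, Even m →
        Function.Injective ((QuotientGroup.mk'
          (Subgroup.normalClosure ({r ^ m} : Set (Monoid.Coprod A B)))).comp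
            (Monoid.Coprod.inl : A →* Monoid.Coprod A B))

end Pool.Agent.Helper8.FH
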